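import Mathlib
import Pool.Agent.TH202.FlRes
import Pool.Agent.TH202.RL
import Pool.Agent.TH202.Cen
import Pool.Agent.TH189.C8_VS
import Pool.Agent.TH126.C8_OVER
import Pool.Agent.TH126.C8_FG
import Pool.Agent.TH828.FL_RA
import Pool.Agent.TH592.FL_IR
import Pool.Agent.TH26.FL_GAUSS
set_option autoImplicit false

/-!
FL-EP (for helper202, MP_aa0b3f_ag): existence of Gauss valuations at the poles of `y_j`.
-/

namespace Pool.Agent.TH874.FL_EP
open Pool.Agent.H436R3.Fol Pool.Agent.TH202 MvPolynomial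
open Pool.Agent.TH828.FL_RA Pool.Agent.TH592.FL_IR Pool.Agent.TH26.FL_GAUSS

variable {K : Type} [Field K] [Algebra ℂ K] 

/-- The inverse of a coordinate is not integral over the polynomial ring. -/
theorem inv_notMem_IC (t : Fin 3 → K) (ht : AlgebraicIndependent ℂ t) (i : Fin 3) :
    (t i)⁻¹ ∉ IC t := by
  intro h
  have h' : IsIntegral (Algebra.adjoin ℂ (Set.range t)) (t i)⁻¹ := h
  have hti : t i ∈ Algebra.adjoin ℂ (Set.range t) := Algebra.subset_adjoin ⟨i, rfl⟩
  have h0 : t i ≠ 0 := ht.ne_zero i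
  have hu : IsUnit (algebraMap (Algebra.adjoin ℂ (Set.range t))
      (integralClosure (Algebra.adjoin ℂ (Set.range t)) K) ⟨t i, hti⟩) := by
    refine IsUnit.of_mul_eq_one ⟨(t i)⁻¹, h'⟩ ?_
    apply Subtype.ext
    exact mul_inv_cancel₀ h0
  have hu2 := isUnit_of_map_unit (algebraMap (Algebra.adjoin ℂ (Set.range t))
    (integralClosure (Algebra.adjoin ℂ (Set.range t)) K)) _ hu
  obtain ⟨b, hb⟩ := hu2.exists_right_inv
  have hb' : t i * (b : K) = 1 := congrArg Subtype.val hb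
  have hbm : (b : K) ∈ (aeval t : MvPolynomial (Fin 3) ℂ →ₐ[ℂ] K).range := by
    rw [← Algebra.adjoin_range_eq_range_aeval]; exact b.2
  obtain ⟨q, hq⟩ := hbm
  have h1 : aeval t (X i * q) = aeval t (1 : MvPolynomial (Fin 3) ℂ) := by
    rw [map_mul, aeval_X, map_one]
    have : aeval t q = (b : K) := hq
    rw [this]
    exact hb'
  have h2 : X i * q = 1 := ht h1
  have h3 := congrArg (MvPolynomial.eval (fun _ => (0 : ℂ))) h2
  simp at h3

theorem IC_fg [Algebra.EssFiniteType ℂ K] (t : Fin 3 → K)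
    (halg : ∀ f : K, IsAlgebraic (Algebra.adjoin ℂ (Set.range t)) f) : (IC t).FG :=
  Pool.Agent.TH126.C8_FG.integralClosure_fg _ ((Subalgebra.fg_iff_finiteType _).2
    (Algebra.FiniteType.adjoin_of_finite (Set.finite_range _))) halg

theorem adjoin_le_IC (t : Fin 3 → K) : Algebra.adjoin ℂ (Set.range t) ≤ IC t := fun f hf =>
  isIntegral_algebraMap (R := Algebra.adjoin ℂ (Set.range t)) (A := K)
    (x := (⟨f, hf⟩ : Algebra.adjoin ℂ (Set.range t)))

theorem IC_normal (t : Fin 3 → K) (f : K) (hf : IsIntegral (IC t) f) : f ∈ IC t := by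
  have h1 : IsIntegral (integralClosure (Algebra.adjoin ℂ (Set.range t)) K) f := hf
  exact isIntegral_trans f h1

theorem IC_frac (t : Fin 3 → K)
    (halg : ∀ f : K, IsAlgebraic (Algebra.adjoin ℂ (Set.range t)) f) (f : K) :
    ∃ a b : K, a ∈ IC t ∧ b ∈ IC t ∧ b ≠ 0 ∧ f * b = a := by
  obtain ⟨y, hy, h⟩ := IsAlgebraic.exists_integral_multiple (halg f)
  refine ⟨f * (y : K), (y : K), ?_, adjoin_le_IC t y.2, fun h0 => hy (Subtype.ext h0), rfl⟩
  change IsIntegral _ _
  rw [mul_comm]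
  exact h

/-- The valuation of the hyperplane `t_i = 0` extends to `K`. -/
theorem exists_w [Algebra.EssFiniteType ℂ K] (t : Fin 3 → K) (ht : AlgebraicIndependent ℂ t)
    (halg : ∀ f : K, IsAlgebraic (Algebra.adjoin ℂ (Set.range t)) f) (i : Fin 3) :
    ∃ w : DVal K, 0 < w.ord (t i) ∧ (∀ j, w.Reg (t j)) ∧
      ∀ q : MvPolynomial (Fin 3) ℂ, w.Pos (aeval t q) → X i ∣ q := by
  by_contra hcon
  push Not at hcon
  apply inv_notMem_IC t ht i
  apply Pool.Agent.W497.Mld.hartogs (IC_fg t halg) (IC_frac t halg) (IC_normal t)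
  intro w hw
  by_contra hreg
  have h0 : t i ≠ 0 := ht.ne_zero i
  have hpos : 0 < w.ord (t i) := by
    by_contra h
    apply hreg
    right
    rw [w.ord_inv h0]
    omega
  have hr : ∀ j, w.Reg (t j) := fun j => hw.1 _ (adjoin_le_IC t (Algebra.subset_adjoin ⟨j, rfl⟩))
  obtain ⟨π, hπ, hdiv⟩ := Pool.Agent.TH126.C8_OVER.prime_over t ht halg w hw
  obtain ⟨q, hq, hn⟩ := hcon w hpos hr
  apply hn
  have h1 : π ∣ X i := by
    rw [← hdiv, aeval_X]
    right; exact hpos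
  have h2 : Associated π (X i) :=
    (Prime.dvd_prime_iff_associated hπ (X_prime (R := ℂ))).1 h1
  exact h2.symm.dvd.trans ((hdiv q).1 hq)

theorem exists_ind2 [Algebra.EssFiniteType ℂ K] (t : Fin 3 → K) (ht : AlgebraicIndependent ℂ t)
    (halg : ∀ f : K, IsAlgebraic (Algebra.adjoin ℂ (Set.range t)) f) (i a b : Fin 3)
    (hia : i ≠ a) (hib : i ≠ b) (hab : a ≠ b) :
    ∃ w : DVal K, 0 < w.ord (t i) ∧ Ind2 w (t a) (t b) := by
  obtain ⟨w, hw1, hw2, hw3⟩ := exists_w t ht halg i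
  refine ⟨w, hw1, hw2 a, hw2 b, ?_⟩
  intro q hq hpos
  apply hq
  have e1 : (aeval ![t a, t b] q : K) = aeval t (rename ![a, b] q) := by
    rw [aeval_rename]
    congr 2
    funext j
    fin_cases j <;> rfl
  rw [e1] at hpos
  obtain ⟨r, hr⟩ := hw3 _ hpos
  -- specialise
  let φ : MvPolynomial (Fin 3) ℂ →ₐ[ℂ] MvPolynomial (Fin 2) ℂ :=
    aeval (fun k => if k = i then 0 else if k = a then X 0 else X 1)
  have h1 : φ (rename ![a, b] q) = q := by
    have : φ.comp (rename ![a, b]) = AlgHom.id ℂ _ := by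
      apply MvPolynomial.algHom_ext
      intro j
      fin_cases j
      · simp [φ, hia.symm]
      · simp [φ, hib.symm, hab.symm]
    exact congrArg (fun g : MvPolynomial (Fin 2) ℂ →ₐ[ℂ] MvPolynomial (Fin 2) ℂ => g q) this
  rw [hr, map_mul] at h1
  have h2 : φ (X i) = 0 := by simp [φ]
  rw [h2, zero_mul] at h1
  exact h1.symm

section main
variable [Algebra.EssFiniteType ℂ K]

omit [Algebra.EssFiniteType ℂ K] in
/-- The common end of the two cases. -/
theorem finish {d : Dat K} (s : Sq d) (hfil : FilV s) (hy : ∀ j, s.y j ∈ Fc d) (j : ℕ)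
    (hj : 1 ≤ j) (w : DVal K) (hi : Ind2 w (s.y (j + 1)) d.c)
    (hp : w.ord (s.y j) < 0 ∨ w.ord (s.y (j + 2)) < 0) :
    IsGauss d w ∧ w.ord (s.y (j + 1)) = 0 ∧
      (w.ord (s.y j) < 0 → 0 ≤ w.ord (s.y (j + 2))) ∧
      (w.ord (s.y (j + 2)) < 0 → 0 ≤ w.ord (s.y j)) := by
  obtain ⟨h1, h2, h3, h4, h5⟩ := ind2_ne hi
  have hG : IsGauss d w := by
    refine gauss (S := {s.y (j + 1)}) (t := d.c) ?_ ?_ (Or.inl rfl) hi.2.1 hi ?_ ?_
    · intro htr
      rcases hp with hp | hp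
      · have := htr _ (hy j) (s.y_ne j)
        omega
      · have := htr _ (hy (j + 2)) (s.y_ne (j + 2))
        omega
    · intro t ht
      rw [Set.mem_singleton_iff] at ht
      rw [ht]
      exact ⟨hy _, hi.1⟩
    · exact RA_mem hi.1 (by simp)
    · exact RA_mem hi.2.1 (by simp)
  have key : ∀ e : K, e ≠ 0 → 0 < w.ord e → w.ord e ≤ w.ord (s.y j)⁻¹ →
      w.ord e ≤ w.ord (s.y (j + 2))⁻¹ → False := by
    intro e he hpos hle1 hle2
    have hconst : ∀ z : ℂ, algebraMap ℂ K z ∈ VS w := fun z => w.reg_const z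
    have heV : e ∈ VS w := by right; exact hpos.le
    have heV' : e⁻¹ ∉ VS w := by
      intro h
      rcases h with h | h
      · exact inv_ne_zero he h
      · rw [w.ord_inv he] at h
        omega
    have hy0 := inv_ne_zero (s.y_ne j)
    have hy2 := inv_ne_zero (s.y_ne (j + 2))
    have hy1 := inv_ne_zero (s.y_ne (j + 1))
    have he' := inv_ne_zero he
    have h := (hfil (VS w) hconst e he heV heV' j hj).2.2
      (by right; rw [w.map_mul _ _ hy0 he', w.ord_inv he]; omega)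
      (by right; rw [w.map_mul _ _ hy2 he', w.ord_inv he]; omega)
    rcases h with h | h
    · exact mul_ne_zero hy1 he' h
    · rw [w.map_mul _ _ hy1 he', w.ord_inv he, w.ord_inv (s.y_ne (j + 1))] at h
      omega
  have both : w.ord (s.y j) < 0 → w.ord (s.y (j + 2)) < 0 → False := by
    intro h6 h7
    have e0 := w.ord_inv (s.y_ne j)
    have e2 := w.ord_inv (s.y_ne (j + 2))
    rcases le_total (w.ord (s.y j)⁻¹) (w.ord (s.y (j + 2))⁻¹) with h8 | h8
    · exact key _ (inv_ne_zero (s.y_ne j)) (by omega) le_rfl h8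
    · exact key _ (inv_ne_zero (s.y_ne (j + 2))) (by omega) h8 le_rfl
  refine ⟨hG, h3, ?_, ?_⟩
  · intro h6
    by_contra h7
    exact both h6 (by omega)
  · intro h6
    by_contra h7
    exact both (by omega) h6

/-- Existence of the poles of `y_j`. -/
theorem exists_pole {d : Dat K} (s : Sq d) (hfil : FilV s) (hy : ∀ j, s.y j ∈ Fc d) (j : ℕ)
    (hj : 1 ≤ j) :
    (∃ w : DVal K, IsGauss d w ∧ w.ord (s.y j) < 0 ∧ 0 ≤ w.ord (s.y (j + 1)) ∧
      0 ≤ w.ord (s.y (j + 2))) ∧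
    (∃ w : DVal K, IsGauss d w ∧ w.ord (s.y (j + 2)) < 0 ∧ 0 ≤ w.ord (s.y (j + 1)) ∧
      0 ≤ w.ord (s.y j)) := by
  constructor
  · obtain ⟨w, hw, hi⟩ := exists_ind2 _ (s.ind j hj) (s.alg j hj) 1 0 2 (by decide) (by decide)
      (by decide)
    have hw' : 0 < w.ord (s.y j)⁻¹ := hw
    have hi' : Ind2 w (s.y (j + 1))⁻¹ d.c := hi
    rw [w.ord_inv (s.y_ne j)] at hw'
    have hi'' := ind2_inv hi'
    rw [inv_inv] at hi''
    have hneg : w.ord (s.y j) < 0 := by omega
    obtain ⟨h1, h2, h3, h4⟩ := finish s hfil hy j hj w hi'' (Or.inl hneg)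
    exact ⟨w, h1, hneg, h2.ge, h3 hneg⟩
  · obtain ⟨w, hw, hi⟩ := exists_ind2 _ (s.ind (j + 1) (by omega)) (s.alg (j + 1) (by omega)) 0 1 2
      (by decide) (by decide) (by decide)
    have hw' : 0 < w.ord (s.y (j + 2))⁻¹ := hw
    have hi' : Ind2 w (s.y (j + 1))⁻¹ d.c := hi
    rw [w.ord_inv (s.y_ne (j + 2))] at hw'
    have hi'' := ind2_inv hi'
    rw [inv_inv] at hi''
    have hneg : w.ord (s.y (j + 2)) < 0 := by omega
    obtain ⟨h1, h2, h3, h4⟩ := finish s hfil hy j hj w hi'' (Or.inr hneg)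
    exact ⟨w, h1, hneg, h2.ge, h4 hneg⟩

end main

end Pool.Agent.TH874.FL_EP
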