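import Pool.Agent.TH229.PG.Defs

/-!
Conics and the leaves of the conic foliation, in dual form.
-/

set_option autoImplicit false

namespace Pool.Agent.TH874.PG

open Real Filter Topology MeasureTheory Set
open Pool.Agent.TH229.PG

theorem eq_of_dots {u v w z z' : Fin 3 → ℝ} (h : dot (crs u v) w ≠ 0)
    (h1 : dot u z = dot u z') (h2 : dot v z = dot v z') (h3 : dot w z = dot w z') : z = z' := by
  unfold dot at *
  simp only [crs0, crs1, crs2] at h
  apply ext3
  · apply mul_left_cancel₀ h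
    linear_combination (v 1 * w 2 - v 2 * w 1) * h1 + (w 1 * u 2 - w 2 * u 1) * h2 +
      (u 1 * v 2 - u 2 * v 1) * h3
  · apply mul_left_cancel₀ h
    linear_combination (v 2 * w 0 - v 0 * w 2) * h1 + (w 2 * u 0 - w 0 * u 2) * h2 +
      (u 2 * v 0 - u 0 * v 2) * h3
  · apply mul_left_cancel₀ h
    linear_combination (v 0 * w 1 - v 1 * w 0) * h1 + (w 0 * u 1 - w 1 * u 0) * h2 +
      (u 0 * v 1 - u 1 * v 0) * h3

theorem dot_smul_right (a : ℝ) (u z : Fin 3 → ℝ) : dot u (a • z) = a * dot u z := by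
  unfold dot; simp; ring

/-- the three dots of the vector product of two points `a u + b v + w` -/
theorem dots_crs (u v w : Fin 3 → ℝ) (a b c d e f : ℝ) :
    dot u (crs (a • u + b • v + c • w) (d • u + e • v + f • w)) =
      dot (crs u v) w * (b * f - c * e) ∧
    dot v (crs (a • u + b • v + c • w) (d • u + e • v + f • w)) =
      dot (crs u v) w * (c * d - a * f) ∧
    dot w (crs (a • u + b • v + c • w) (d • u + e • v + f • w)) =
      dot (crs u v) w * (a * e - b * d) := by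
  unfold dot
  simp only [crs0, crs1, crs2, Pi.add_apply, Pi.smul_apply, smul_eq_mul]
  refine ⟨?_, ?_, ?_⟩ <;> ring

theorem polar (x y : ℝ) : ∃ m : ℝ, x = Real.sqrt (x ^ 2 + y ^ 2) * Real.cos m ∧
    y = Real.sqrt (x ^ 2 + y ^ 2) * Real.sin m := by
  refine ⟨Complex.arg ⟨x, y⟩, ?_, ?_⟩
  · have := Complex.norm_mul_cos_arg (⟨x, y⟩ : ℂ)
    rw [Complex.norm_def, Complex.normSq_mk] at this
    rw [pow_two, pow_two]; exact this.symm
  · have := Complex.norm_mul_sin_arg (⟨x, y⟩ : ℂ)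
    rw [Complex.norm_def, Complex.normSq_mk] at this
    rw [pow_two, pow_two]; exact this.symm

/-- if `X² + Y² > 0` and `Z² = c² (X² + Y²)`, then `(X, Y, Z) = ρ (cos m, sin m, -c)` -/
theorem cone_param {X Y Z c : ℝ} (h : Z ^ 2 = c ^ 2 * (X ^ 2 + Y ^ 2)) :
    ∃ m ρ : ℝ, X = ρ * (-Real.cos m) ∧ Y = ρ * (-Real.sin m) ∧ Z = ρ * c := by
  obtain ⟨m, hX, hY⟩ := polar X Y
  set q := Real.sqrt (X ^ 2 + Y ^ 2) with hq
  have hq2 : q ^ 2 = X ^ 2 + Y ^ 2 := Real.sq_sqrt (by positivity)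
  have h2 : Z ^ 2 = (c * q) ^ 2 := by rw [h, mul_pow, hq2]
  rcases sq_eq_sq_iff_eq_or_eq_neg.mp h2 with hZ | hZ
  · refine ⟨m + π, q, ?_, ?_, ?_⟩
    · rw [Real.cos_add_pi, neg_neg]; exact hX
    · rw [Real.sin_add_pi, neg_neg]; exact hY
    · rw [hZ]; ring
  · refine ⟨m, -q, ?_, ?_, ?_⟩
    · rw [neg_mul_neg]; exact hX
    · rw [neg_mul_neg]; exact hY
    · rw [hZ]; ring

theorem conic_leaf {u v w : Fin 3 → ℝ} (h : dot (crs u v) w ≠ 0) {θ : ℝ} (h0 : 0 < θ)
    (h1 : θ < 2 * π) {z : Fin 3 → ℝ} (hz : z ≠ 0) :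
    dot w z ^ 2 = Real.cos (θ / 2) ^ 2 * (dot u z ^ 2 + dot v z ^ 2) ↔
      ∃ s r : ℝ, z = r • crs (Real.cos s • u + Real.sin s • v + w)
        (Real.cos (s + θ) • u + Real.sin (s + θ) • v + w) := by
  have hs : 0 < Real.sin (θ / 2) := Real.sin_pos_of_pos_of_lt_pi (by linarith) (by linarith)
  have key : ∀ m : ℝ,
      dot u (crs (Real.cos (m - θ / 2) • u + Real.sin (m - θ / 2) • v + w)
        (Real.cos (m - θ / 2 + θ) • u + Real.sin (m - θ / 2 + θ) • v + w)) =
        dot (crs u v) w * (2 * Real.sin (θ / 2)) * (-Real.cos m) ∧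
      dot v (crs (Real.cos (m - θ / 2) • u + Real.sin (m - θ / 2) • v + w)
        (Real.cos (m - θ / 2 + θ) • u + Real.sin (m - θ / 2 + θ) • v + w)) =
        dot (crs u v) w * (2 * Real.sin (θ / 2)) * (-Real.sin m) ∧
      dot w (crs (Real.cos (m - θ / 2) • u + Real.sin (m - θ / 2) • v + w)
        (Real.cos (m - θ / 2 + θ) • u + Real.sin (m - θ / 2 + θ) • v + w)) =
        dot (crs u v) w * (2 * Real.sin (θ / 2)) * Real.cos (θ / 2) := by
    intro m
    have e1 : m - θ / 2 + θ = m + θ / 2 := by ring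
    rw [e1]
    obtain ⟨a1, a2, a3⟩ := dots_crs u v w (Real.cos (m - θ / 2)) (Real.sin (m - θ / 2)) 1
      (Real.cos (m + θ / 2)) (Real.sin (m + θ / 2)) 1
    simp only [one_smul] at a1 a2 a3
    rw [a1, a2, a3, Real.cos_add, Real.sin_add, Real.cos_sub, Real.sin_sub]
    refine ⟨by ring, by ring, ?_⟩
    have := Real.sin_sq_add_cos_sq m
    linear_combination (2 * dot (crs u v) w * Real.sin (θ / 2) * Real.cos (θ / 2)) * this
  constructor
  · intro hc
    obtain ⟨m, ρ, hX, hY, hZ⟩ := cone_param hc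
    refine ⟨m - θ / 2, ρ / (dot (crs u v) w * (2 * Real.sin (θ / 2))), ?_⟩
    obtain ⟨k1, k2, k3⟩ := key m
    have hD : dot (crs u v) w * (2 * Real.sin (θ / 2)) ≠ 0 := mul_ne_zero h (by positivity)
    apply eq_of_dots h
    · rw [dot_smul_right, k1, hX]; field_simp
    · rw [dot_smul_right, k2, hY]; field_simp
    · rw [dot_smul_right, k3, hZ]; field_simp
  · rintro ⟨s, r, rfl⟩
    obtain ⟨k1, k2, k3⟩ := key (s + θ / 2)
    have e : s + θ / 2 - θ / 2 = s := by ring
    rw [e] at k1 k2 k3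
    rw [dot_smul_right, dot_smul_right, dot_smul_right, k1, k2, k3]
    have := Real.sin_sq_add_cos_sq (s + θ / 2)
    linear_combination (-(r * (dot (crs u v) w * (2 * Real.sin (θ / 2)) *
      Real.cos (θ / 2))) ^ 2) * this

theorem conic_base {u v w : Fin 3 → ℝ} (h : dot (crs u v) w ≠ 0) {z : Fin 3 → ℝ} (hz : z ≠ 0) :
    dot w z ^ 2 = dot u z ^ 2 + dot v z ^ 2 ↔
      ∃ s r : ℝ, z = r • crs (Real.cos s • u + Real.sin s • v + w)
        ((-Real.sin s) • u + Real.cos s • v) := by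
  have key : ∀ m : ℝ,
      dot u (crs (Real.cos m • u + Real.sin m • v + w) ((-Real.sin m) • u + Real.cos m • v)) =
        dot (crs u v) w * (-Real.cos m) ∧
      dot v (crs (Real.cos m • u + Real.sin m • v + w) ((-Real.sin m) • u + Real.cos m • v)) =
        dot (crs u v) w * (-Real.sin m) ∧
      dot w (crs (Real.cos m • u + Real.sin m • v + w) ((-Real.sin m) • u + Real.cos m • v)) =
        dot (crs u v) w * 1 := by
    intro m
    obtain ⟨a1, a2, a3⟩ := dots_crs u v w (Real.cos m) (Real.sin m) 1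
      (-Real.sin m) (Real.cos m) 0
    simp only [one_smul, zero_smul, add_zero] at a1 a2 a3
    rw [a1, a2, a3]
    refine ⟨by ring, by ring, ?_⟩
    have := Real.sin_sq_add_cos_sq m
    linear_combination (dot (crs u v) w) * this
  constructor
  · intro hc
    have hc' : dot w z ^ 2 = 1 ^ 2 * (dot u z ^ 2 + dot v z ^ 2) := by rw [hc]; ring
    obtain ⟨m, ρ, hX, hY, hZ⟩ := cone_param hc'
    refine ⟨m, ρ / dot (crs u v) w, ?_⟩
    obtain ⟨k1, k2, k3⟩ := key m
    apply eq_of_dots h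
    · rw [dot_smul_right, k1, hX]; field_simp
    · rw [dot_smul_right, k2, hY]; field_simp
    · rw [dot_smul_right, k3, hZ]; field_simp
  · rintro ⟨s, r, rfl⟩
    obtain ⟨k1, k2, k3⟩ := key s
    rw [dot_smul_right, dot_smul_right, dot_smul_right, k1, k2, k3]
    have := Real.sin_sq_add_cos_sq s
    linear_combination (-(r * (dot (crs u v) w)) ^ 2) * this

end Pool.Agent.TH874.PG
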