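import Pool.Agent.TH993.SP.Defs

set_option autoImplicit false

open MeasureTheory Set Real
open Pool.Agent.TH993.SP

namespace Pool.Agent.TH874.SPB

theorem Nb_uv (θ : ℝ) : Nb (uv θ) = 1 := by
  simp [Nb, uv]

theorem pt_uv (θ : ℝ) : pt Nb θ = uv θ := by
  simp [pt, Nb_uv]

theorem rd_one (θ : ℝ) : rd Nb θ = 1 := by
  simp [rd, Nb_uv]

theorem Nb_sub (θ φ : ℝ) : Nb (uv θ - uv φ) = 2 * |Real.sin ((θ - φ) / 2)| := by
  have h : (uv θ - uv φ).1 ^ 2 + (uv θ - uv φ).2 ^ 2 = (2 * Real.sin ((θ - φ) / 2)) ^ 2 := by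
    have h1 : Real.cos (θ - φ) = Real.cos θ * Real.cos φ + Real.sin θ * Real.sin φ :=
      Real.cos_sub θ φ
    have h2 : Real.cos (θ - φ) = 1 - 2 * Real.sin ((θ - φ) / 2) ^ 2 := by
      have := Real.cos_two_mul ((θ - φ) / 2)
      have h3 := Real.sin_sq_add_cos_sq ((θ - φ) / 2)
      have h4 : 2 * ((θ - φ) / 2) = θ - φ := by ring
      rw [h4] at this
      linarith
    have h5 := Real.sin_sq_add_cos_sq θ
    have h6 := Real.sin_sq_add_cos_sq φ
    simp only [uv, Prod.fst_sub, Prod.snd_sub]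
    nlinarith
  rw [Nb, h, Real.sqrt_sq_eq_abs, abs_mul, abs_two]

theorem inner (θ : ℝ) : ∫ φ in (-π)..π, 2 * |Real.sin ((θ - φ) / 2)| = 8 := by
  have hper : Function.Periodic (fun φ : ℝ => 2 * |Real.sin ((θ - φ) / 2)|) (2 * π) := by
    intro φ
    simp only
    have : (θ - (φ + 2 * π)) / 2 = (θ - φ) / 2 - π := by ring
    rw [this, Real.sin_sub_pi, abs_neg]
  have h1 := hper.intervalIntegral_add_eq (-π) (θ - 2 * π)
  have e1 : -π + 2 * π = π := by ring
  have e2 : θ - 2 * π + 2 * π = θ := by ring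
  rw [e1, e2] at h1
  rw [h1]
  have h2 : ∫ φ in (θ - 2 * π)..θ, 2 * |Real.sin ((θ - φ) / 2)| =
      ∫ φ in (θ - 2 * π)..θ, 2 * Real.sin ((θ - φ) / 2) := by
    apply intervalIntegral.integral_congr
    intro φ hφ
    rw [Set.uIcc_of_le (by linarith [Real.pi_pos])] at hφ
    simp only
    rw [abs_of_nonneg]
    apply Real.sin_nonneg_of_nonneg_of_le_pi
    · linarith [hφ.2]
    · linarith [hφ.1]
  rw [h2]
  have hd : ∀ φ ∈ Set.uIcc (θ - 2 * π) θ,
      HasDerivAt (fun φ : ℝ => 4 * Real.cos ((θ - φ) / 2)) (2 * Real.sin ((θ - φ) / 2)) φ := by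
    intro φ _
    have h3 : HasDerivAt (fun φ : ℝ => (θ - φ) / 2) (-1 / 2) φ := by
      have := ((hasDerivAt_id φ).const_sub θ).div_const 2
      simpa using this
    have := (h3.cos).const_mul 4
    refine this.congr_deriv ?_
    ring
  rw [intervalIntegral.integral_eq_sub_of_hasDerivAt hd
    (Continuous.intervalIntegrable (by fun_prop) _ _)]
  have e3 : (θ - θ) / 2 = 0 := by ring
  have e4 : (θ - (θ - 2 * π)) / 2 = π := by ring
  rw [e3, e4, Real.cos_zero, Real.cos_pi]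
  norm_num

theorem BALL : S_BALL := by
  unfold S_BALL EN
  simp only [pt_uv, rd_one, Nb_sub, mul_one, inner]
  rw [intervalIntegral.integral_const, intervalIntegral.integral_const]
  have := Real.pi_pos
  simp only [smul_eq_mul]
  field_simp
  ring

end Pool.Agent.TH874.SPB
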