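import Pool.Agent.TH993.SP.Defs

set_option autoImplicit false

open MeasureTheory Set Real
open scoped Pointwise
open Pool.Agent.TH993.SP

namespace Pool.Agent.TH874.SPG

/-- the unit ball of `N` -/
def KN (N : ℝ × ℝ → ℝ) : Set E2 := {x : E2 | N (x 0, x 1) ≤ 1}

section
variable {N : ℝ × ℝ → ℝ} (H : IsN N)
include H

theorem N_zero : N 0 = 0 := by
  have := H.smul 0 0
  simpa using this

theorem N_nonneg (u : ℝ × ℝ) : 0 ≤ N u := by
  by_cases h : u = 0
  · rw [h, N_zero H]
  · exact (H.pos u h).le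

theorem N_neg (u : ℝ × ℝ) : N (-u) = N u := by
  have := H.smul (-1) u
  simpa using this

theorem f_cont : Continuous (fun x : E2 => N (x 0, x 1)) :=
  H.cont.comp (by fun_prop)

theorem f_smul (r : ℝ) (x : E2) : N ((r • x) 0, (r • x) 1) = |r| * N (x 0, x 1) := by
  have := H.smul r (x 0, x 1)
  simpa using this

theorem f_add (x y : E2) : N ((x + y) 0, (x + y) 1) ≤ N (x 0, x 1) + N (y 0, y 1) := by
  have := H.add (x 0, x 1) (y 0, y 1)
  simpa using this

theorem KN_convex : Convex ℝ (KN N) := by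
  intro x hx y hy a b ha hb hab
  simp only [KN, mem_ofPred_eq] at hx hy ⊢
  have h1 := f_add H (a • x) (b • y)
  rw [f_smul H, f_smul H, abs_of_nonneg ha, abs_of_nonneg hb] at h1
  refine h1.trans ?_
  have h2 : a * N (x 0, x 1) ≤ a := mul_le_of_le_one_right ha hx
  have h3 : b * N (y 0, y 1) ≤ b := mul_le_of_le_one_right hb hy
  linarith

theorem KN_compact : IsCompact (KN N) := by
  apply Metric.isCompact_of_isClosed_isBounded
  · exact isClosed_le (f_cont H) continuous_const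
  · obtain ⟨z, hz, hmin⟩ := (isCompact_sphere (0 : E2) 1).exists_isMinOn
      (NormedSpace.sphere_nonempty.2 zero_le_one) (f_cont H).continuousOn
    have hz1 : ‖z‖ = 1 := by simpa using hz
    have hz0 : (z 0, z 1) ≠ (0 : ℝ × ℝ) := by
      intro h
      have h0 : z 0 = 0 := congrArg Prod.fst h
      have h1 : z 1 = 0 := congrArg Prod.snd h
      have : z = 0 := by
        ext i
        fin_cases i
        · exact h0
        · exact h1
      rw [this] at hz1
      simp at hz1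
    have hm := H.pos _ hz0
    rw [isBounded_iff_forall_norm_le]
    refine ⟨(N (z 0, z 1))⁻¹, fun x hx => ?_⟩
    by_cases hx0 : x = 0
    · rw [hx0, norm_zero]; positivity
    have hn : 0 < ‖x‖ := norm_pos_iff.2 hx0
    have h1 : N (z 0, z 1) ≤ N ((‖x‖⁻¹ • x) 0, (‖x‖⁻¹ • x) 1) := by
      apply hmin
      simp [norm_smul, hn.ne']
    rw [f_smul H, abs_of_pos (inv_pos.2 hn)] at h1
    have h2 : N (x 0, x 1) ≤ 1 := hx
    rw [le_inv_comm₀ hn hm]
    calc N (z 0, z 1) ≤ ‖x‖⁻¹ * N (x 0, x 1) := h1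
      _ ≤ ‖x‖⁻¹ * 1 := by gcongr
      _ = ‖x‖⁻¹ := mul_one _

theorem KN_body : Body (KN N) := by
  refine ⟨KN_convex H, KN_compact H, ?_, ?_⟩
  · refine ⟨0, ?_⟩
    rw [mem_interior]
    refine ⟨{x : E2 | N (x 0, x 1) < 1}, fun x hx => ?_,
      isOpen_lt (f_cont H) continuous_const, ?_⟩
    · have h1 : N (x 0, x 1) < 1 := hx
      exact h1.le
    show N ((0 : E2) 0, (0 : E2) 1) < 1
    have : ((0 : E2) 0, (0 : E2) 1) = (0 : ℝ × ℝ) := rfl
    rw [this, N_zero H]
    norm_num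
  · intro x hx
    show N ((-x) 0, (-x) 1) ≤ 1
    have : ((-x : E2) 0, (-x : E2) 1) = -(x 0, x 1) := rfl
    rw [this, N_neg H]
    exact hx

theorem KN_gauge (x : E2) : gauge (KN N) x = N (x 0, x 1) := by
  have key : ∀ r : ℝ, 0 < r → (x ∈ r • KN N ↔ N (x 0, x 1) ≤ r) := by
    intro r hr
    rw [Set.mem_smul_set_iff_inv_smul_mem₀ hr.ne']
    show N ((r⁻¹ • x) 0, (r⁻¹ • x) 1) ≤ 1 ↔ _
    rw [f_smul H, abs_of_pos (inv_pos.2 hr), inv_mul_le_iff₀ hr, mul_one]
  apply le_antisymm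
  · apply le_of_forall_pos_le_add
    intro ε hε
    have h0 := N_nonneg H (x 0, x 1)
    apply gauge_le_of_mem (by linarith)
    rw [key _ (by linarith)]
    linarith
  · rw [gauge_def]
    apply le_csInf
    · refine ⟨N (x 0, x 1) + 1, ?_, ?_⟩
      · have h0 := N_nonneg H (x 0, x 1)
        simp only [mem_Ioi]; linarith
      · rw [key _ (by linarith [N_nonneg H (x 0, x 1)])]
        linarith
    · rintro r ⟨hr, hx⟩
      exact (key r hr).1 hx

theorem KN_gN : gN (KN N) = N := by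
  funext p
  rw [gN, KN_gauge H]
  rfl

end

theorem Nb_eq (p : ℝ × ℝ) : Nb p = ‖toE p‖ := by
  rw [EuclideanSpace.norm_eq, Fin.sum_univ_two]
  simp [Nb, toE]

theorem isN_Nb : IsN Nb where
  add u v := by
    rw [Nb_eq, Nb_eq, Nb_eq]
    have : toE (u + v) = toE u + toE v := by
      ext i; fin_cases i <;> simp [toE]
    rw [this]
    exact norm_add_le _ _
  smul r u := by
    rw [Nb_eq, Nb_eq]
    have : toE (r • u) = r • toE u := by
      ext i; fin_cases i <;> simp [toE]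
    rw [this, norm_smul, Real.norm_eq_abs]
  pos u hu := by
    rw [Nb_eq, norm_pos_iff]
    intro h
    apply hu
    have h0 := congrFun (congrArg WithLp.ofLp h) 0
    have h1 := congrFun (congrArg WithLp.ofLp h) 1
    simp [toE] at h0 h1
    exact Prod.ext h0 h1
  cont := by
    unfold Nb
    fun_prop

theorem Ns_eq (p : ℝ × ℝ) : Ns p = ‖p‖ := rfl

theorem isN_Ns : IsN Ns where
  add u v := norm_add_le u v
  smul r u := by
    rw [Ns_eq, Ns_eq, norm_smul, Real.norm_eq_abs]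
  pos u hu := norm_pos_iff.2 hu
  cont := continuous_norm

theorem ball_eq : Metric.closedBall (0 : E2) 1 = KN Nb := by
  ext x
  rw [mem_closedBall_zero_iff]
  show _ ↔ Nb (x 0, x 1) ≤ 1
  rw [EuclideanSpace.norm_eq, Fin.sum_univ_two]
  simp [Nb]

theorem sq_eq : sq = KN Ns := by
  ext x
  show (∀ i : Fin 2, |x i| ≤ 1) ↔ max |x 0| |x 1| ≤ 1
  rw [Fin.forall_fin_two, max_le_iff]

theorem GN : S_GN := by
  refine ⟨?_, ?_, ?_, ?_, fun N H => ⟨KN N, KN_body H, KN_gN H⟩⟩
  · rw [ball_eq]; exact KN_body isN_Nb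
  · rw [sq_eq]; exact KN_body isN_Ns
  · rw [ball_eq]; exact KN_gN isN_Nb
  · rw [sq_eq]; exact KN_gN isN_Ns

end Pool.Agent.TH874.SPG
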