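import Mathlib

set_option autoImplicit false

/-! Counterexample for MP_293fae_al: `R = ℤ[i][X]` localized at `(1+i, X)`. -/

namespace Pool.Agent.TH874.Pyth

open Polynomial

abbrev G := GaussianInt
abbrev A := Polynomial GaussianInt

noncomputable def φ0 : GaussianInt →+* ZMod 2 := Zsqrtd.lift ⟨1, by decide⟩

noncomputable def φ : A →+* ZMod 2 := Polynomial.eval₂RingHom φ0 0

lemma φ_apply (f : A) : φ f = φ0 (f.coeff 0) := by
  simp [φ, Polynomial.eval₂_at_zero]

lemma φ0_apply (z : GaussianInt) : φ0 z = (z.re : ZMod 2) + (z.im : ZMod 2) := by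
  simp [φ0, Zsqrtd.lift]

noncomputable def P : Ideal A := RingHom.ker φ

instance : (P).IsPrime := RingHom.ker_isPrime φ

/-- the element `1 + i` -/
def pi' : GaussianInt := ⟨1, 1⟩

lemma P_eq : P = Ideal.span {C pi', X} := by
  apply le_antisymm
  · intro f hf
    have hf' : φ0 (f.coeff 0) = 0 := by
      rw [← φ_apply]; exact hf
    rw [φ0_apply] at hf'
    obtain ⟨a, b⟩ : ∃ a b : ℤ, a = (f.coeff 0).re ∧ b = (f.coeff 0).im := ⟨_, _, rfl, rfl⟩
    have h2 : (((f.coeff 0).re + (f.coeff 0).im : ℤ) : ZMod 2) = 0 := by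
      push_cast; exact hf'
    have h3 : (2 : ℤ) ∣ (f.coeff 0).re + (f.coeff 0).im :=
      (ZMod.intCast_zmod_eq_zero_iff_dvd _ 2).mp h2
    obtain ⟨c, hc⟩ := h3
    have h4 : f.coeff 0 = pi' * ⟨c, c - (f.coeff 0).re⟩ := by
      apply Zsqrtd.ext
      · simp [pi']
      · simp [pi']; linarith
    have h5 : f = X * divX f + C (f.coeff 0) := (X_mul_divX_add f).symm
    rw [h5, h4, C_mul]
    apply Ideal.add_mem
    · exact Ideal.mul_mem_right _ _ (Ideal.subset_span (by simp))
    · exact Ideal.mul_mem_right _ _ (Ideal.subset_span (by simp))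
  · rw [Ideal.span_le]
    intro f hf
    rcases hf with rfl | rfl
    · show φ _ = 0
      rw [φ_apply, φ0_apply]
      simp [pi']
      decide
    · show φ _ = 0
      rw [φ_apply, φ0_apply]
      simp

lemma X_lt_P : Ideal.span {(X : A)} < P := by
  constructor
  · rw [P_eq]
    exact Ideal.span_mono (by simp)
  · intro h
    have h1 : (C pi' : A) ∈ Ideal.span {(X : A)} := h (by rw [P_eq]; exact Ideal.subset_span (by simp))
    rw [Ideal.mem_span_singleton, X_dvd_iff] at h1
    simp [pi'] at h1
    exact absurd h1 (by decide)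

lemma height_P : P.height = 2 := by
  apply le_antisymm
  · refine (P.height_le_spanFinrank (Ideal.IsPrime.ne_top inferInstance)).trans ?_
    rw [P_eq]
    have h := Submodule.spanFinrank_span_le_ncard_of_finite (R := A) (s := ({C pi', X} : Set A))
      (by simp)
    have h2 : ({C pi', X} : Set A).ncard ≤ 2 := by
      refine (Set.ncard_insert_le _ _).trans ?_
      rw [Set.ncard_singleton]
    exact_mod_cast h.trans h2
  · have : (Ideal.span {(X : A)}).IsPrime :=
      (Ideal.span_singleton_prime X_ne_zero).mpr prime_X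
    have h0 : (⊥ : Ideal A) < Ideal.span {(X : A)} := by
      rw [bot_lt_iff_ne_bot]
      simp
    have h1 := Ideal.height_add_one_le_of_lt_of_isPrime h0
    have h2 := Ideal.height_add_one_le_of_lt_of_isPrime X_lt_P
    calc (2 : ℕ∞) = 0 + 1 + 1 := by norm_num
      _ ≤ (⊥ : Ideal A).height + 1 + 1 := by gcongr; exact zero_le
      _ ≤ (Ideal.span {(X : A)}).height + 1 := by gcongr
      _ ≤ P.height := h2

abbrev R := Localization.AtPrime P

instance : IsDomain R := IsLocalization.isDomain_localization (Ideal.primeCompl_le_nonZeroDivisors P)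

instance : IsNoetherianRing R := IsLocalization.isNoetherianRing P.primeCompl R inferInstance

lemma dim_R : ringKrullDim R = 2 := by
  rw [IsLocalization.AtPrime.ringKrullDim_eq_height P R, height_P]
  rfl

lemma max_R : IsLocalRing.maximalIdeal R
    = Ideal.span {algebraMap A R (C pi'), algebraMap A R X} := by
  have h1 : Ideal.map (algebraMap A R) P = IsLocalRing.maximalIdeal R :=
    Localization.AtPrime.map_eq_maximalIdeal
  have h2 : Ideal.map (algebraMap A R) P = Ideal.map (algebraMap A R) (Ideal.span {C pi', X}) :=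
    congrArg (Ideal.map (algebraMap A R)) P_eq
  rw [← h1, h2, Ideal.map_span, Set.image_pair]

/-- `f = X ^ 2 + 2` is prime in `ℤ[i][X]`. -/
lemma prime_f : Prime (X ^ 2 + C 2 : A) := by
  rw [← irreducible_iff_prime]
  have hm : (X ^ 2 + C 2 : A).Monic := monic_X_pow_add_C 2 (by norm_num)
  have hd : (X ^ 2 + C 2 : A).natDegree = 2 := natDegree_X_pow_add_C
  rw [hm.irreducible_iff_roots_eq_zero_of_degree_le_three (by omega) (by omega)]
  rw [Multiset.eq_zero_iff_forall_notMem]
  intro z hz
  rw [mem_roots hm.ne_zero] at hz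
  have hz' : z ^ 2 + 2 = 0 := by simpa [IsRoot] using hz
  have hre := congrArg Zsqrtd.re hz'
  have him := congrArg Zsqrtd.im hz'
  simp [pow_two] at hre him
  have h3 : z.re * z.im = 0 := by linarith [mul_comm z.re z.im]
  rcases mul_eq_zero.mp h3 with h | h
  · rw [h] at hre
    have h5 : z.im * z.im = 2 := by linarith
    have : z.im < 2 := by nlinarith
    have : -2 < z.im := by nlinarith
    interval_cases z.im <;> omega
  · rw [h] at hre
    nlinarith [mul_self_nonneg z.re]

lemma two_mem : (2 : R) ∈ IsLocalRing.maximalIdeal R := by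
  have h : (algebraMap A R (C 2)) ∈ IsLocalRing.maximalIdeal R := by
    rw [← Localization.AtPrime.map_eq_maximalIdeal]
    apply Ideal.mem_map_of_mem
    show φ _ = 0
    rw [φ_apply, φ0_apply]
    simp
    decide
  have h2 : (algebraMap A R (C 2)) = 2 := by
    have : (C 2 : A) = 2 := rfl
    rw [this, map_ofNat]
  rwa [h2] at h

/-- the image of `f` in `R` -/
noncomputable def fR : R := algebraMap A R (X ^ 2 + C 2)

lemma f_mem_P : (X ^ 2 + C 2 : A) ∈ P := by
  show φ _ = 0
  rw [φ_apply, φ0_apply]
  simp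
  decide

lemma fR_mem : fR ∈ IsLocalRing.maximalIdeal R := by
  rw [← Localization.AtPrime.map_eq_maximalIdeal]
  exact Ideal.mem_map_of_mem _ f_mem_P

lemma prime_fR : Prime fR := by
  have h0 : (X ^ 2 + C 2 : A) ≠ 0 := prime_f.ne_zero
  have hinj : Function.Injective (algebraMap A R) :=
    IsLocalization.injective R (Ideal.primeCompl_le_nonZeroDivisors P)
  have hne : fR ≠ 0 := by
    intro h
    apply h0
    apply hinj
    rw [map_zero]; exact h
  have hp : (Ideal.span {(X ^ 2 + C 2 : A)}).IsPrime :=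
    (Ideal.span_singleton_prime h0).mpr prime_f
  have hd : Disjoint (P.primeCompl : Set A) (Ideal.span {(X ^ 2 + C 2 : A)} : Set A) := by
    rw [Set.disjoint_left]
    intro x hx hx2
    apply hx
    exact (Ideal.span_singleton_le_iff_mem _).mpr f_mem_P hx2
  have := IsLocalization.isPrime_of_isPrime_disjoint P.primeCompl R _ hp hd
  rw [Ideal.map_span, Set.image_singleton] at this
  exact (Ideal.span_singleton_prime hne).mp this

/-- the image of `i` in `R` -/
noncomputable def iR : R := algebraMap A R (C ⟨0, 1⟩)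

lemma iR_sq : iR * iR = -1 := by
  unfold iR
  rw [← map_mul, ← C_mul]
  have : (⟨0, 1⟩ * ⟨0, 1⟩ : GaussianInt) = -1 := by decide
  rw [this]
  simp

lemma fR_eq : fR = (algebraMap A R X) ^ 2 + 2 := by
  unfold fR
  rw [map_add, map_pow]
  have : (C 2 : A) = 2 := rfl
  rw [this, map_ofNat]

lemma sumSq_fR : IsSumSq fR := by
  rw [fR_eq]
  have h1 : IsSumSq (1 : R) := IsSumSq.one
  have h2 : (algebraMap A R X) ^ 2 + 2 = (algebraMap A R X) * (algebraMap A R X) + (1 * 1 + (1 * 1 + 0)) := by
    ring
  rw [h2]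
  exact IsSumSq.sq_add _ (IsSumSq.sq_add _ (IsSumSq.sq_add _ IsSumSq.zero))

lemma not_two (a b : R) : fR ≠ a ^ 2 + b ^ 2 := by
  intro h
  have hfac : fR = (a + iR * b) * (a - iR * b) := by
    rw [h]
    have : (a + iR * b) * (a - iR * b) = a ^ 2 - (iR * iR) * b ^ 2 := by ring
    rw [this, iR_sq]; ring
  have hirr := prime_fR.irreducible
  have hfu : ¬ IsUnit fR := prime_fR.not_isUnit
  have h2 := two_mem
  have key : ∀ u v : R, u - v ∈ IsLocalRing.maximalIdeal R → IsUnit u → IsUnit v := by
    intro u v huv hu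
    by_contra hv
    have hv' : v ∈ IsLocalRing.maximalIdeal R := (IsLocalRing.mem_maximalIdeal v).mpr hv
    have : u ∈ IsLocalRing.maximalIdeal R := by
      have := Ideal.add_mem _ huv hv'
      simpa using this
    exact (IsLocalRing.mem_maximalIdeal u).mp this hu
  have hd : (a + iR * b) - (a - iR * b) ∈ IsLocalRing.maximalIdeal R := by
    have : (a + iR * b) - (a - iR * b) = (iR * b) * 2 := by ring
    rw [this]
    exact Ideal.mul_mem_left _ _ h2
  have hd' : (a - iR * b) - (a + iR * b) ∈ IsLocalRing.maximalIdeal R := by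
    have h3 := Ideal.neg_mem_iff _ |>.mpr hd
    rwa [neg_sub] at h3
  rcases hirr.isUnit_or_isUnit hfac with hu | hu
  · exact hfu (hfac ▸ hu.mul (key _ _ hd hu))
  · exact hfu (hfac ▸ (key _ _ hd' hu).mul hu)

lemma two_in_K (K : Type) [Field K] [Algebra R K] [IsFractionRing R K] (x : K) :
    ∃ f : Fin 2 → K, x = ∑ i, f i ^ 2 := by
  have hinj : Function.Injective (algebraMap R K) := IsFractionRing.injective R K
  have h2 : (2 : K) ≠ 0 := by
    have hR : (2 : R) ≠ 0 := by
      have hinjA : Function.Injective (algebraMap A R) :=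
        IsLocalization.injective R (Ideal.primeCompl_le_nonZeroDivisors P)
      have : (2 : A) ≠ 0 := two_ne_zero
      intro h
      apply this
      apply hinjA
      rw [map_ofNat, h, map_zero]
    intro h
    apply hR
    apply hinj
    rw [map_ofNat, h, map_zero]
  have hi : algebraMap R K iR * algebraMap R K iR = -1 := by
    rw [← map_mul, iR_sq]; simp
  refine ⟨![(x + 1) / 2, algebraMap R K iR * ((x - 1) / 2)], ?_⟩
  rw [Fin.sum_univ_two]
  simp only [Matrix.cons_val_zero, Matrix.cons_val_one]
  have : (algebraMap R K iR * ((x - 1) / 2)) ^ 2 =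
      (algebraMap R K iR * algebraMap R K iR) * ((x - 1) / 2) ^ 2 := by ring
  rw [this, hi]
  field_simp
  ring

theorem aux {R' : Type} [CommRing R'] [IsDomain R'] {C : Prop}
    (h : ∀ (K : Type) [Field K] [Algebra R' K] [IsFractionRing R' K], C) : C :=
  h (FractionRing R')

end Pool.Agent.TH874.Pyth
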