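import Mathlib

set_option autoImplicit false

namespace Pool.Agent.TH874.Unicoh

open Set Topology Real

/-- A continuous real function on a preconnected set whose values are all multiples of `2π`
is constant. -/
theorem const_of_exp_one {Y : Type*} [TopologicalSpace Y] {S : Set Y} (hS : IsPreconnected S)
    {F : Y → ℝ} (hF : ContinuousOn F S) (h1 : ∀ y ∈ S, Circle.exp (F y) = 1) :
    ∀ {a b : Y}, a ∈ S → b ∈ S → F a = F b := by
  have key : ∀ {a b : Y}, a ∈ S → b ∈ S → ¬ F a < F b := by
    intro a b ha hb hlt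
    obtain ⟨m, hm⟩ := Circle.exp_eq_one.1 (h1 a ha)
    obtain ⟨n, hn⟩ := Circle.exp_eq_one.1 (h1 b hb)
    have hmn : (m : ℝ) < n := by
      rw [hm, hn] at hlt
      exact lt_of_mul_lt_mul_right hlt (by positivity)
    have hmn' : m + 1 ≤ n := by exact_mod_cast hmn
    have hmn2 : (m : ℝ) + 1 ≤ n := by exact_mod_cast hmn'
    have hmem : F a + π ∈ Icc (F a) (F b) := by
      constructor
      · linarith [pi_pos]
      · rw [hm, hn]; nlinarith [pi_pos]
    obtain ⟨c, hc, hcF⟩ := hS.intermediate_value ha hb hF hmem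
    obtain ⟨k, hk⟩ := Circle.exp_eq_one.1 (h1 c hc)
    have : (2 * (k - m) : ℝ) = 1 := by
      have hp := pi_pos.ne'
      have h3 : (k : ℝ) * (2 * π) = m * (2 * π) + π := by rw [← hk, ← hm, hcF]
      have h4 : (2 * (k - m) : ℝ) * π = 1 * π := by linarith
      exact mul_right_cancel₀ hp h4
    have h5 : (2 * (k - m) : ℤ) = 1 := by exact_mod_cast this
    omega
  intro a b ha hb
  exact le_antisymm (not_lt.1 (key hb ha)) (not_lt.1 (key ha hb))

/-- If every continuous map into the circle lifts to the line, the space is unicoherent. -/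
theorem unicoherent_of_lift {Y : Type*} [MetricSpace Y] [ConnectedSpace Y]
    (h : ∀ g : Y → Circle, Continuous g →
      ∃ θ : Y → ℝ, Continuous θ ∧ ∀ y, Circle.exp (θ y) = g y)
    (A B : Set Y) (hA : IsClosed A) (hB : IsClosed B) (cA : IsConnected A) (cB : IsConnected B)
    (hAB : A ∪ B = univ) : IsConnected (A ∩ B) := by
  refine ⟨?_, ?_⟩
  · by_contra hne
    have hpre := (isPreconnected_closed_iff.1 (isPreconnected_univ (α := Y))) A B hA hB
      (by rw [hAB]) (by simpa using cA.nonempty) (by simpa using cB.nonempty)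
    simp only [univ_inter] at hpre
    exact hne hpre
  · rw [isPreconnected_closed_iff]
    intro t t' ht ht' hsub hne hne'
    by_contra hcon
    rw [not_nonempty_iff_eq_empty] at hcon
    have hC : IsClosed ((A ∩ B) ∩ t) := (hA.inter hB).inter ht
    have hD : IsClosed ((A ∩ B) ∩ t') := (hA.inter hB).inter ht'
    have hdisj : Disjoint ((A ∩ B) ∩ t) ((A ∩ B) ∩ t') := by
      rw [Set.disjoint_left]
      rintro x ⟨hx, hxt⟩ ⟨-, hxt'⟩
      have : x ∈ (A ∩ B) ∩ (t ∩ t') := ⟨hx, hxt, hxt'⟩
      rw [hcon] at this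
      exact this
    obtain ⟨u, hu0, hu1, -⟩ := exists_continuous_zero_one_of_isClosed hC hD hdisj
    classical
    let g : Y → Circle := fun y => if y ∈ A then Circle.exp (π * u y) else Circle.exp (-(π * u y))
    have gA : ∀ y ∈ A, g y = Circle.exp (π * u y) := fun y hy => by simp [g, hy]
    have gB : ∀ y ∈ B, g y = Circle.exp (-(π * u y)) := by
      intro y hy
      by_cases hyA : y ∈ A
      · rw [gA y hyA]
        rcases hsub ⟨hyA, hy⟩ with hyt | hyt
        · have := hu0 ⟨⟨hyA, hy⟩, hyt⟩
          simp only [Pi.zero_apply] at this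
          rw [this]; simp
        · have := hu1 ⟨⟨hyA, hy⟩, hyt⟩
          simp only [Pi.one_apply] at this
          rw [this, Circle.exp_eq_exp]
          exact ⟨1, by push_cast; ring⟩
      · simp [g, hyA]
    have hg : Continuous g := by
      rw [← continuousOn_univ, ← hAB]
      refine ContinuousOn.union_of_isClosed ?_ ?_ hA hB
      · refine ContinuousOn.congr ?_ gA
        exact (Circle.exp.continuous.comp (continuous_const.mul u.continuous)).continuousOn
      · refine ContinuousOn.congr ?_ gB
        exact (Circle.exp.continuous.comp (continuous_const.mul u.continuous).neg).continuousOn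
    obtain ⟨θ, hθ, hθg⟩ := h g hg
    obtain ⟨c, ⟨hcA, hcB⟩, hct⟩ := hne
    obtain ⟨d, ⟨hdA, hdB⟩, hdt⟩ := hne'
    have e1 : θ c - π * u c = θ d - π * u d := by
      refine const_of_exp_one (F := fun y => θ y - π * u y) cA.isPreconnected
        (hθ.sub (continuous_const.mul u.continuous)).continuousOn ?_ hcA hdA
      intro y hy
      rw [Circle.exp_sub, hθg, gA y hy, div_self']
    have e2 : θ c + π * u c = θ d + π * u d := by
      refine const_of_exp_one (F := fun y => θ y + π * u y) cB.isPreconnected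
        (hθ.add (continuous_const.mul u.continuous)).continuousOn ?_ hcB hdB
      intro y hy
      rw [Circle.exp_add, hθg, gB y hy, Circle.exp_neg, inv_mul_cancel]
    have hc0 : u c = 0 := hu0 ⟨⟨hcA, hcB⟩, hct⟩
    have hd1 : u d = 1 := hu1 ⟨⟨hdA, hdB⟩, hdt⟩
    rw [hc0, hd1] at e1 e2
    linarith [pi_pos]

/-- A continuous surjection of a compact Hausdorff space onto a Hausdorff space whose fibres are
the orbits of a fixed point free involution is a local homeomorphism. -/
theorem isLocalHomeomorph_of_two_to_one {X Y : Type*} [TopologicalSpace X] [TopologicalSpace Y]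
    [CompactSpace X] [T2Space X] [T2Space Y] (σ : X → X) (hσ : Continuous σ)
    (hinv : ∀ x, σ (σ x) = x) (hfix : ∀ x, σ x ≠ x) (f : X → Y) (hf : Continuous f)
    (hs : Function.Surjective f) (hfib : ∀ x y, f x = f y ↔ y = x ∨ y = σ x) :
    IsLocalHomeomorph f := by
  have hq : IsQuotientMap f := IsQuotientMap.of_surjective_continuous hs hf
  have hopen : IsOpenMap f := by
    intro U hU
    rw [← hq.isOpen_preimage]
    have : f ⁻¹' (f '' U) = U ∪ σ ⁻¹' U := by
      ext x
      constructor
      · rintro ⟨y, hy, hyx⟩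
        rcases (hfib y x).1 hyx with rfl | rfl
        · exact Or.inl hy
        · right
          change σ (σ y) ∈ U
          rwa [hinv]
      · rintro (hx | hx)
        · exact ⟨x, hx, rfl⟩
        · refine ⟨σ x, hx, ?_⟩
          exact (hfib _ _).2 (Or.inr (hinv x).symm)
    rw [this]
    exact hU.union (hU.preimage hσ)
  rw [isLocalHomeomorph_iff_isOpenEmbedding_restrict]
  intro x
  obtain ⟨U, V, hU, hV, hxU, hxV, hUV⟩ := t2_separation (hfix x).symm
  have hW : IsOpen (U ∩ σ ⁻¹' V) := hU.inter (hV.preimage hσ)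
  refine ⟨U ∩ σ ⁻¹' V, hW.mem_nhds ⟨hxU, hxV⟩, ?_⟩
  refine IsOpenEmbedding.of_continuous_injective_isOpenMap (hf.comp continuous_subtype_val) ?_
    (hopen.domRestrict hW)
  rintro ⟨a, ha⟩ ⟨b, hb⟩ hab
  rcases (hfib a b).1 hab with h | h
  · exact Subtype.ext h.symm
  · exfalso
    have : b ∈ V := by rw [h]; exact ha.2
    exact Set.disjoint_left.1 hUV hb.1 this

end Pool.Agent.TH874.Unicoh
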