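import Mathlib
import Pool.Agent.TH874.Unicoh

set_option autoImplicit false

namespace Pool.Agent.TH874.Unicoh

open Set Topology Real

/-- closed unit disc -/
abbrev K : Type := Metric.closedBall (0 : ℂ) 1

instance : ContractibleSpace K :=
  (convex_closedBall (0 : ℂ) 1).contractibleSpace ⟨0, by simp⟩

instance : LocallyPathConnectedSpace K := (convex_closedBall (0 : ℂ) 1).locallyPathConnectedSpace

def K0 : K := ⟨0, by simp⟩

theorem lift_K (g : K → Circle) (hg : Continuous g) (e0 : ℝ) (h0 : Circle.exp e0 = g K0) :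
    ∃ θ : K → ℝ, Continuous θ ∧ θ K0 = e0 ∧ ∀ z, Circle.exp (θ z) = g z := by
  obtain ⟨F, ⟨hF0, hF⟩, -⟩ :=
    Circle.isCoveringMap_exp.existsUnique_continuousMap_lifts (⟨g, hg⟩ : C(K, Circle)) (a₀ := K0)
      (e₀ := e0) h0
  exact ⟨F, F.continuous, hF0, fun z => congrFun hF z⟩

def negK (z : K) : K := ⟨-z.1, by
  have h := z.2
  rw [mem_closedBall_zero_iff] at h ⊢
  rwa [norm_neg]⟩

theorem continuous_negK : Continuous negK := by
  unfold negK; fun_prop

theorem boundary_even (g : K → Circle) (θ : K → ℝ) (hθ : Continuous θ)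
    (hg : ∀ z, Circle.exp (θ z) = g z) (hb : ∀ z : K, ‖z.1‖ = 1 → g (negK z) = g z)
    (z : K) (hz : ‖z.1‖ = 1) : θ (negK z) = θ z := by
  have hS : IsPreconnected {z : K | ‖z.1‖ = 1} := by
    have : {z : K | ‖z.1‖ = 1} = Set.range (fun t : ℝ => (⟨Complex.exp (t * Complex.I), by
        simp [Complex.norm_exp_ofReal_mul_I]⟩ : K)) := by
      ext w
      constructor
      · intro hw
        refine ⟨Complex.arg w.1, ?_⟩
        apply Subtype.ext
        have := Complex.norm_mul_exp_arg_mul_I w.1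
        have hw' : ‖w.1‖ = 1 := hw
        rw [hw'] at this
        simpa using this
      · rintro ⟨t, rfl⟩
        simp [Complex.norm_exp_ofReal_mul_I]
    rw [this]
    apply isPreconnected_range
    fun_prop
  have hn : ‖(negK z).1‖ = 1 := by simpa [negK] using hz
  have hnn : negK (negK z) = z := by apply Subtype.ext; simp [negK]
  have := const_of_exp_one (F := fun w => θ (negK w) - θ w) hS
    ((hθ.comp continuous_negK).sub hθ).continuousOn (fun w hw => by
      rw [Circle.exp_sub, hg, hg, hb w hw, div_self']) (a := z) (b := negK z) hz hn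
  simp only [hnn] at this
  linarith

/-- two unit 2-spheres meeting in two antipodal points -/
def X : Set (ℝ × ℂ × ℂ) :=
  {p | p.1 ^ 2 + ‖p.2.1‖ ^ 2 + ‖p.2.2‖ ^ 2 = 1 ∧ (p.2.1 = 0 ∨ p.2.2 = 0)}

def F (p : ℝ × ℂ × ℂ) : ℝ × ℂ × ℂ × ℂ × ℂ :=
  (p.1 ^ 2, (p.1 : ℂ) * p.2.1, (p.1 : ℂ) * p.2.2, p.2.1 ^ 2, p.2.2 ^ 2)

theorem continuous_F : Continuous F := by
  unfold F; fun_prop

def Y : Set (ℝ × ℂ × ℂ × ℂ × ℂ) := F '' X

def f (p : X) : Y := ⟨F p.1, p.1, p.2, rfl⟩

theorem continuous_f : Continuous f := by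
  unfold f
  exact (continuous_F.comp continuous_subtype_val).subtype_mk _

theorem f_surj : Function.Surjective f := by
  rintro ⟨y, p, hp, rfl⟩
  exact ⟨⟨p, hp⟩, rfl⟩

def σ (p : X) : X := ⟨-p.1, by
  obtain ⟨⟨t, z, w⟩, h1, h2⟩ := p
  refine ⟨?_, ?_⟩
  · simpa using h1
  · simpa using h2⟩

theorem continuous_σ : Continuous σ := by
  unfold σ
  exact (continuous_subtype_val.neg).subtype_mk _

theorem σσ (p : X) : σ (σ p) = p := by
  apply Subtype.ext; simp [σ]

theorem zero_notMem : (0 : ℝ × ℂ × ℂ) ∉ X := by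
  rintro ⟨h, -⟩
  simp at h

theorem σ_ne (p : X) : σ p ≠ p := by
  intro h
  have h' : -p.1 = p.1 := congrArg Subtype.val h
  have : p.1 = 0 := self_eq_neg.1 h'.symm
  exact zero_notMem (this ▸ p.2)

theorem F_fib {p q : ℝ × ℂ × ℂ} (hp : p ∈ X) (hq : q ∈ X) : F p = F q ↔ q = p ∨ q = -p := by
  constructor
  · intro h
    obtain ⟨t, z, w⟩ := p
    obtain ⟨s, u, v⟩ := q
    simp only [F, Prod.mk.injEq] at h
    obtain ⟨h1, h2, h3, h4, h5⟩ := h
    simp only [Prod.neg_mk, Prod.mk.injEq]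
    by_cases ht : t = 0
    · have hs : s = 0 := by
        rw [ht] at h1; simpa using h1.symm
      subst ht; subst hs
      have hz : z = u ∨ z = -u := sq_eq_sq_iff_eq_or_eq_neg.1 h4
      have hw : w = v ∨ w = -v := sq_eq_sq_iff_eq_or_eq_neg.1 h5
      rcases hp.2 with h0 | h0
      · simp only at h0
        subst h0
        have hu : u = 0 := by rcases hz with h | h <;> simpa using h.symm
        subst hu
        rcases hw with rfl | rfl <;> simp
      · simp only at h0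
        subst h0
        have hv : v = 0 := by rcases hw with h | h <;> simpa using h.symm
        subst hv
        rcases hz with rfl | rfl <;> simp
    · rcases sq_eq_sq_iff_eq_or_eq_neg.1 h1 with rfl | rfl
      · left
        have : (t : ℂ) ≠ 0 := by exact_mod_cast ht
        exact ⟨rfl, (mul_left_cancel₀ this h2).symm, (mul_left_cancel₀ this h3).symm⟩
      · right
        have hs : (s : ℂ) ≠ 0 := by
          intro h; apply ht; have : s = 0 := by exact_mod_cast h
          simp [this]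
        refine ⟨by ring, ?_, ?_⟩
        · apply mul_left_cancel₀ hs
          rw [← h2]; push_cast; ring
        · apply mul_left_cancel₀ hs
          rw [← h3]; push_cast; ring
  · rintro (rfl | rfl)
    · rfl
    · obtain ⟨t, z, w⟩ := p
      simp [F]

theorem f_fib (p q : X) : f p = f q ↔ q = p ∨ q = σ p := by
  have h1 : f p = f q ↔ F p.1 = F q.1 := by
    simp [f, Subtype.ext_iff]
  rw [h1, F_fib p.2 q.2]
  simp [σ, Subtype.ext_iff]

instance : CompactSpace X := by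
  rw [← isCompact_iff_compactSpace]
  refine Metric.isCompact_of_isClosed_isBounded ?_ ?_
  · refine IsClosed.inter ?_ ?_
    · exact isClosed_eq (by fun_prop) continuous_const
    · refine IsClosed.union ?_ ?_
      · exact isClosed_eq (by fun_prop) continuous_const
      · exact isClosed_eq (by fun_prop) continuous_const
  · refine (Metric.isBounded_closedBall (x := (0 : ℝ × ℂ × ℂ)) (r := 1)).subset ?_
    rintro ⟨t, z, w⟩ ⟨h, -⟩
    simp only at h
    rw [mem_closedBall_zero_iff, Prod.norm_def, Prod.norm_def]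
    simp only [sup_le_iff]
    have a1 := sq_nonneg t
    have a2 := sq_nonneg ‖z‖
    have a3 := sq_nonneg ‖w‖
    refine ⟨?_, ?_, ?_⟩
    · rw [Real.norm_eq_abs, ← abs_one, ← sq_le_sq]; linarith
    · rw [← abs_of_nonneg (norm_nonneg z), ← abs_one, ← sq_le_sq]; linarith
    · rw [← abs_of_nonneg (norm_nonneg w), ← abs_one, ← sq_le_sq]; linarith

theorem norm_sq_le (z : K) : ‖z.1‖ ^ 2 ≤ 1 := by
  have h := z.2
  rw [mem_closedBall_zero_iff] at h
  nlinarith [norm_nonneg z.1]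

theorem sq_sqrt_K (z : K) : (√(1 - ‖z.1‖ ^ 2)) ^ 2 = 1 - ‖z.1‖ ^ 2 :=
  Real.sq_sqrt (by linarith [norm_sq_le z])

noncomputable def P1 (z : K) : X := ⟨(√(1 - ‖z.1‖ ^ 2), z.1, 0), by simp [X, sq_sqrt_K z]⟩

noncomputable def P2 (z : K) : X := ⟨(√(1 - ‖z.1‖ ^ 2), 0, z.1), by simp [X, sq_sqrt_K z]⟩

theorem continuous_P1 : Continuous P1 := by
  refine Continuous.subtype_mk ?_ _
  fun_prop

theorem continuous_P2 : Continuous P2 := by
  refine Continuous.subtype_mk ?_ _
  fun_prop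

noncomputable def q : (K ⊕ K) ⊕ (K ⊕ K) → X :=
  Sum.elim (Sum.elim P1 (σ ∘ P1)) (Sum.elim P2 (σ ∘ P2))

theorem continuous_q : Continuous q :=
  (continuous_P1.sumElim (continuous_σ.comp continuous_P1)).sumElim
    (continuous_P2.sumElim (continuous_σ.comp continuous_P2))

theorem q_surj : Function.Surjective q := by
  rintro ⟨⟨t, z, w⟩, h1, h2⟩
  simp only at h1 h2
  rcases h2 with rfl | rfl
  · have hw : ‖w‖ ^ 2 = 1 - t ^ 2 := by simp at h1; linarith
    have hw1 : ‖w‖ ≤ 1 := by nlinarith [sq_nonneg t, norm_nonneg w]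
    by_cases ht : 0 ≤ t
    · refine ⟨Sum.inr (Sum.inl ⟨w, by simpa using hw1⟩), ?_⟩
      apply Subtype.ext
      simp only [q, Sum.elim_inr, Sum.elim_inl, P2, hw]
      rw [show (1 - (1 - t ^ 2)) = t ^ 2 by ring, Real.sqrt_sq ht]
    · refine ⟨Sum.inr (Sum.inr ⟨-w, by simpa using hw1⟩), ?_⟩
      apply Subtype.ext
      simp only [q, Sum.elim_inr, P2, σ, Function.comp, norm_neg, hw]
      rw [show (1 - (1 - t ^ 2)) = (-t) ^ 2 by ring, Real.sqrt_sq (by linarith)]
      simp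
  · have hw : ‖z‖ ^ 2 = 1 - t ^ 2 := by simp at h1; linarith
    have hw1 : ‖z‖ ≤ 1 := by nlinarith [sq_nonneg t, norm_nonneg z]
    by_cases ht : 0 ≤ t
    · refine ⟨Sum.inl (Sum.inl ⟨z, by simpa using hw1⟩), ?_⟩
      apply Subtype.ext
      simp only [q, Sum.elim_inl, P1, hw]
      rw [show (1 - (1 - t ^ 2)) = t ^ 2 by ring, Real.sqrt_sq ht]
    · refine ⟨Sum.inl (Sum.inr ⟨-z, by simpa using hw1⟩), ?_⟩
      apply Subtype.ext
      simp only [q, Sum.elim_inr, Sum.elim_inl, P1, σ, Function.comp, norm_neg, hw]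
      rw [show (1 - (1 - t ^ 2)) = (-t) ^ 2 by ring, Real.sqrt_sq (by linarith)]
      simp

instance : LocallyConnectedSpace X := by
  have hq : IsQuotientMap q := IsQuotientMap.of_surjective_continuous q_surj continuous_q
  have := hq.locallyPathConnectedSpace
  infer_instance

/-- first sphere -/
def A : Set X := {p | p.1.2.2 = 0}
/-- second sphere -/
def B : Set X := {p | p.1.2.1 = 0}

theorem A_eq : A = Set.range P1 ∪ Set.range (σ ∘ P1) := by
  ext p
  constructor
  · intro hp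
    obtain ⟨a, rfl⟩ := q_surj p
    rcases a with (z | z) | (z | z)
    · exact Or.inl ⟨z, rfl⟩
    · exact Or.inr ⟨z, rfl⟩
    · left
      have hz : z.1 = 0 := hp
      refine ⟨z, ?_⟩
      apply Subtype.ext
      simp [q, P1, P2, hz]
    · right
      have hz : -z.1 = 0 := hp
      have hz : z.1 = 0 := by simpa using hz
      refine ⟨z, ?_⟩
      apply Subtype.ext
      simp [q, P1, P2, σ, hz]
  · rintro (⟨z, rfl⟩ | ⟨z, rfl⟩)
    · rfl
    · simp [A, σ, P1]

theorem B_eq : B = Set.range P2 ∪ Set.range (σ ∘ P2) := by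
  ext p
  constructor
  · intro hp
    obtain ⟨a, rfl⟩ := q_surj p
    rcases a with (z | z) | (z | z)
    · left
      have hz : z.1 = 0 := hp
      refine ⟨z, ?_⟩
      apply Subtype.ext
      simp [q, P1, P2, hz]
    · right
      have hz : -z.1 = 0 := hp
      have hz : z.1 = 0 := by simpa using hz
      refine ⟨z, ?_⟩
      apply Subtype.ext
      simp [q, P1, P2, σ, hz]
    · exact Or.inl ⟨z, rfl⟩
    · exact Or.inr ⟨z, rfl⟩
  · rintro (⟨z, rfl⟩ | ⟨z, rfl⟩)
    · rfl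
    · simp [B, σ, P2]

def K1 : K := ⟨1, by simp⟩

theorem isConnected_A : IsConnected A := by
  rw [A_eq]
  refine IsConnected.union ⟨P1 K1, ⟨K1, rfl⟩, ⟨negK K1, ?_⟩⟩ ?_ ?_
  · apply Subtype.ext
    simp [P1, σ, negK, K1]
  · exact isConnected_range continuous_P1
  · exact isConnected_range (continuous_σ.comp continuous_P1)

theorem isConnected_B : IsConnected B := by
  rw [B_eq]
  refine IsConnected.union ⟨P2 K1, ⟨K1, rfl⟩, ⟨negK K1, ?_⟩⟩ ?_ ?_
  · apply Subtype.ext
    simp [P2, σ, negK, K1]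
  · exact isConnected_range continuous_P2
  · exact isConnected_range (continuous_σ.comp continuous_P2)

theorem A_union_B : A ∪ B = univ := by
  ext p
  simpa [A, B, or_comm] using p.2.2

theorem P1_K0_mem : P1 K0 ∈ A ∩ B := by
  simp [A, B, P1, K0]

theorem σP1_K0_mem : σ (P1 K0) ∈ A ∩ B := by
  simp [A, B, P1, K0, σ]

instance : ConnectedSpace X := by
  rw [connectedSpace_iff_univ, ← A_union_B]
  exact IsConnected.union ⟨_, P1_K0_mem⟩ isConnected_A isConnected_B

theorem not_isConnected : ¬ IsConnected (A ∩ B) := by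
  intro h
  have hc : ContinuousOn (fun p : X => p.1.1) (A ∩ B) := by fun_prop
  have hmem : (0 : ℝ) ∈ Icc ((σ (P1 K0)).1.1) ((P1 K0).1.1) := by
    simp [P1, K0, σ]
  obtain ⟨p, ⟨hpA, hpB⟩, hp⟩ := h.isPreconnected.intermediate_value σP1_K0_mem P1_K0_mem hc hmem
  have h1 := p.2.1
  have hA : p.1.2.2 = 0 := hpA
  have hB : p.1.2.1 = 0 := hpB
  have hp' : p.1.1 = 0 := hp
  rw [hA, hB, hp'] at h1
  simp at h1

theorem isClosed_A : IsClosed A := isClosed_eq (by fun_prop) continuous_const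
theorem isClosed_B : IsClosed B := isClosed_eq (by fun_prop) continuous_const

theorem f_isLocalHomeomorph : IsLocalHomeomorph f :=
  isLocalHomeomorph_of_two_to_one σ continuous_σ σσ σ_ne f continuous_f f_surj f_fib

instance : ConnectedSpace Y := f_surj.connectedSpace continuous_f

theorem fσ (p : X) : f (σ p) = f p := ((f_fib p (σ p)).2 (Or.inr rfl)).symm

noncomputable def h : K ⊕ K → Y := Sum.elim (f ∘ P1) (f ∘ P2)

theorem continuous_h : Continuous h :=
  (continuous_f.comp continuous_P1).sumElim (continuous_f.comp continuous_P2)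

theorem h_surj : Function.Surjective h := by
  intro y
  obtain ⟨p, rfl⟩ := f_surj y
  obtain ⟨a, rfl⟩ := q_surj p
  rcases a with (z | z) | (z | z)
  · exact ⟨Sum.inl z, rfl⟩
  · exact ⟨Sum.inl z, (fσ _).symm⟩
  · exact ⟨Sum.inr z, rfl⟩
  · exact ⟨Sum.inr z, (fσ _).symm⟩

theorem P1_fib {z w : K} (hzw : f (P1 z) = f (P1 w)) : w = z ∨ (‖z.1‖ = 1 ∧ w = negK z) := by
  rcases (f_fib _ _).1 hzw with h | h
  · left
    apply Subtype.ext
    exact congrArg (fun p : X => p.1.2.1) h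
  · right
    have e1 : w.1 = -z.1 := congrArg (fun p : X => p.1.2.1) h
    have e2 : √(1 - ‖w.1‖ ^ 2) = -√(1 - ‖z.1‖ ^ 2) := congrArg (fun p : X => p.1.1) h
    refine ⟨?_, Subtype.ext e1⟩
    have h3 : √(1 - ‖z.1‖ ^ 2) = 0 := by
      have a1 := Real.sqrt_nonneg (1 - ‖z.1‖ ^ 2)
      have a2 := Real.sqrt_nonneg (1 - ‖w.1‖ ^ 2)
      linarith
    have h4 := sq_sqrt_K z
    rw [h3] at h4
    have h5 : ‖z.1‖ ^ 2 = 1 := by linarith
    nlinarith [norm_nonneg z.1]

theorem P2_fib {z w : K} (hzw : f (P2 z) = f (P2 w)) : w = z ∨ (‖z.1‖ = 1 ∧ w = negK z) := by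
  rcases (f_fib _ _).1 hzw with h | h
  · left
    apply Subtype.ext
    exact congrArg (fun p : X => p.1.2.2) h
  · right
    have e1 : w.1 = -z.1 := congrArg (fun p : X => p.1.2.2) h
    have e2 : √(1 - ‖w.1‖ ^ 2) = -√(1 - ‖z.1‖ ^ 2) := congrArg (fun p : X => p.1.1) h
    refine ⟨?_, Subtype.ext e1⟩
    have h3 : √(1 - ‖z.1‖ ^ 2) = 0 := by
      have a1 := Real.sqrt_nonneg (1 - ‖z.1‖ ^ 2)
      have a2 := Real.sqrt_nonneg (1 - ‖w.1‖ ^ 2)
      linarith
    have h4 := sq_sqrt_K z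
    rw [h3] at h4
    have h5 : ‖z.1‖ ^ 2 = 1 := by linarith
    nlinarith [norm_nonneg z.1]

theorem P12_fib {z w : K} (hzw : f (P1 z) = f (P2 w)) : z = K0 ∧ w = K0 := by
  rcases (f_fib _ _).1 hzw with h | h
  · have e1 : (0 : ℂ) = z.1 := congrArg (fun p : X => p.1.2.1) h
    have e2 : w.1 = 0 := congrArg (fun p : X => p.1.2.2) h
    exact ⟨Subtype.ext e1.symm, Subtype.ext e2⟩
  · have e1 : (0 : ℂ) = -z.1 := congrArg (fun p : X => p.1.2.1) h
    have e2 : w.1 = -0 := congrArg (fun p : X => p.1.2.2) h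
    exact ⟨Subtype.ext (neg_eq_zero.1 e1.symm), Subtype.ext (e2.trans neg_zero)⟩

theorem P1_bd {z : K} (hz : ‖z.1‖ = 1) : f (P1 (negK z)) = f (P1 z) := by
  rw [f_fib]
  right
  apply Subtype.ext
  simp [P1, σ, negK, hz]

theorem P2_bd {z : K} (hz : ‖z.1‖ = 1) : f (P2 (negK z)) = f (P2 z) := by
  rw [f_fib]
  right
  apply Subtype.ext
  simp [P2, σ, negK, hz]

theorem P1_K0 : P1 K0 = P2 K0 := by
  apply Subtype.ext
  simp [P1, P2, K0]

theorem lift_Y (g : Y → Circle) (hg : Continuous g) :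
    ∃ θ : Y → ℝ, Continuous θ ∧ ∀ y, Circle.exp (θ y) = g y := by
  obtain ⟨e0, he0⟩ : ∃ e0 : ℝ, Circle.exp e0 = g (f (P1 K0)) :=
    ⟨Complex.arg (g (f (P1 K0)) : ℂ), Circle.exp_arg _⟩
  obtain ⟨θ1, hθ1, h10, h1⟩ := lift_K (g ∘ f ∘ P1) (hg.comp (continuous_f.comp continuous_P1)) e0 he0
  obtain ⟨θ2, hθ2, h20, h2⟩ := lift_K (g ∘ f ∘ P2) (hg.comp (continuous_f.comp continuous_P2)) e0
    (by rw [he0, P1_K0]; rfl)
  have b1 : ∀ z : K, ‖z.1‖ = 1 → θ1 (negK z) = θ1 z := fun z hz =>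
    boundary_even (g ∘ f ∘ P1) θ1 hθ1 h1 (fun w hw => by simp [P1_bd hw]) z hz
  have b2 : ∀ z : K, ‖z.1‖ = 1 → θ2 (negK z) = θ2 z := fun z hz =>
    boundary_even (g ∘ f ∘ P2) θ2 hθ2 h2 (fun w hw => by simp [P2_bd hw]) z hz
  have hq : IsQuotientMap (⟨h, continuous_h⟩ : C(K ⊕ K, Y)) :=
    IsQuotientMap.of_surjective_continuous h_surj continuous_h
  let Θ : K ⊕ K → ℝ := Sum.elim θ1 θ2
  have hΘ : Continuous Θ := hθ1.sumElim hθ2
  have hcomp : ∀ a b : K ⊕ K, h a = h b → Θ a = Θ b := by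
    rintro (z | z) (w | w) hab
    · rcases P1_fib hab with rfl | ⟨hz, rfl⟩
      · rfl
      · exact (b1 z hz).symm
    · obtain ⟨rfl, rfl⟩ := P12_fib hab
      change θ1 K0 = θ2 K0
      rw [h10, h20]
    · obtain ⟨rfl, rfl⟩ := P12_fib hab.symm
      change θ2 K0 = θ1 K0
      rw [h10, h20]
    · rcases P2_fib hab with rfl | ⟨hz, rfl⟩
      · rfl
      · exact (b2 z hz).symm
  refine ⟨hq.lift ⟨Θ, hΘ⟩ hcomp, (hq.lift ⟨Θ, hΘ⟩ hcomp).continuous, ?_⟩
  intro y
  obtain ⟨a, rfl⟩ := h_surj y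
  have := DFunLike.congr_fun (hq.lift_comp ⟨Θ, hΘ⟩ hcomp) a
  have e : (hq.lift ⟨Θ, hΘ⟩ hcomp) (h a) = Θ a := this
  rw [e]
  rcases a with z | z
  · exact h1 z
  · exact h2 z

theorem main : ¬ (∀ (X Y : Type) [MetricSpace X] [CompactSpace X] [ConnectedSpace X]
      [LocallyConnectedSpace X] [MetricSpace Y] (f : X → Y),
      IsLocalHomeomorph f → Function.Surjective f →
      (∃ A B : Set X, IsClosed A ∧ IsClosed B ∧ IsConnected A ∧ IsConnected B ∧
          A ∪ B = Set.univ ∧ ¬ IsConnected (A ∩ B)) →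
      (∃ A B : Set Y, IsClosed A ∧ IsClosed B ∧ IsConnected A ∧ IsConnected B ∧
          A ∪ B = Set.univ ∧ ¬ IsConnected (A ∩ B))) := by
  intro H
  obtain ⟨A', B', hA, hB, cA, cB, hAB, hn⟩ := H X Y f f_isLocalHomeomorph f_surj
    ⟨A, B, isClosed_A, isClosed_B, isConnected_A, isConnected_B, A_union_B, not_isConnected⟩
  exact hn (unicoherent_of_lift lift_Y A' B' hA hB cA cB hAB)

end Pool.Agent.TH874.Unicoh
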