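import Pool.Agent.TH229.PG.GeoDefs

/-!
Reparametrisation of a closed convex curve: normalised lift `Γ` with a prescribed correction `k` of
the first logarithmic derivative of the kernel.
-/

set_option autoImplicit false

namespace Pool.Agent.TH874.PG

open Real Filter Topology MeasureTheory Set
open scoped ContDiff
open Pool.Agent.TH229.PG

/-! ### primitives, iterated derivatives -/

theorem prim_deriv {k : ℝ → ℝ} (hk : Continuous k) (x : ℝ) :
    HasDerivAt (fun x => ∫ t in (0:ℝ)..x, k t) (k x) x :=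
  intervalIntegral.integral_hasDerivAt_right (hk.intervalIntegrable _ _)
    (hk.stronglyMeasurableAtFilter _ _) hk.continuousAt

theorem smooth_of_deriv {f f' : ℝ → ℝ} (h : ∀ x, HasDerivAt f (f' x) x) (hf' : ContDiff ℝ ∞ f') :
    ContDiff ℝ ∞ f := by
  rw [contDiff_infty_iff_deriv]
  refine ⟨fun x => (h x).differentiableAt, ?_⟩
  have : deriv f = f' := funext fun x => (h x).deriv
  rw [this]; exact hf'

theorem per_of_deriv {f f' : ℝ → ℝ} {P : ℝ} (h : ∀ x, HasDerivAt f (f' x) x)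
    (hp : ∀ x, f' (x + P) = f' x) (x : ℝ) : f (x + P) = f x + (f P - f 0) := by
  have hd : ∀ x, HasDerivAt (fun y => f (y + P) - f y) 0 x := by
    intro y
    have h1 : HasDerivAt (fun y => f (y + P)) (f' (y + P)) y := by
      simpa using (h (y + P)).comp_add_const y P
    have := h1.sub (h y)
    rw [hp, sub_self] at this
    exact this
  have hc : ∀ x y, (fun y => f (y + P) - f y) x = (fun y => f (y + P) - f y) y :=
    is_const_of_deriv_eq_zero (fun x => (hd x).differentiableAt) (fun x => (hd x).deriv)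
  have := hc x 0
  simp only [zero_add] at this
  linarith

theorem iter_deriv {F : Type*} [NormedAddCommGroup F] [NormedSpace ℝ F] {f : ℝ → F}
    (hf : ContDiff ℝ ∞ f) (i : ℕ) (x : ℝ) :
    HasDerivAt (iteratedDeriv i f) (iteratedDeriv (i + 1) f x) x := by
  rw [iteratedDeriv_succ]
  have : Differentiable ℝ (iteratedDeriv i f) :=
    hf.differentiable_iteratedDeriv i (by exact_mod_cast ENat.natCast_lt_top i)
  exact (this x).hasDerivAt

theorem iter_per {F : Type*} [NormedAddCommGroup F] [NormedSpace ℝ F] {f : ℝ → F} {T : ℝ}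
    (hf : ∀ x, f (x + T) = f x) (i : ℕ) : ∀ x, iteratedDeriv i f (x + T) = iteratedDeriv i f x := by
  induction i with
  | zero => intro x; simpa using hf x
  | succ i ih =>
    intro x
    rw [iteratedDeriv_succ]
    have h1 : deriv (fun y => iteratedDeriv i f (y + T)) x = deriv (iteratedDeriv i f) (x + T) :=
      deriv_comp_add_const _ _ _
    rw [← h1]
    congr 1
    funext y
    exact ih y

/-! ### change of parameter -/

structure Par (P T : ℝ) (σ φ ψ : ℝ → ℝ) : Prop where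
  Tpos : 0 < T
  dψ : ∀ x, HasDerivAt ψ (σ x) x
  dφ : ∀ s, HasDerivAt φ ((σ (φ s))⁻¹) s
  sψ : ContDiff ℝ ∞ ψ
  sφ : ContDiff ℝ ∞ φ
  mψ : StrictMono ψ
  mφ : StrictMono φ
  inv1 : ∀ s, ψ (φ s) = s
  inv2 : ∀ x, φ (ψ x) = x
  shift : ∀ s, φ (s + T) = φ s + P

theorem exists_par {P : ℝ} (hP : 0 < P) {σ : ℝ → ℝ} (hσ : ContDiff ℝ ∞ σ) (hpos : ∀ x, 0 < σ x)
    (hper : ∀ x, σ (x + P) = σ x) : ∃ (T : ℝ) (φ ψ : ℝ → ℝ), Par P T σ φ ψ := by
  have hc : Continuous σ := hσ.continuous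
  obtain ⟨c, hc0, hcσ⟩ : ∃ c > 0, ∀ x, c ≤ σ x := by
    obtain ⟨x0, -, hx0⟩ := (isCompact_Icc (a := (0:ℝ)) (b := P)).exists_isMinOn
      ⟨0, left_mem_Icc.2 hP.le⟩ hc.continuousOn
    refine ⟨σ x0, hpos x0, fun x => ?_⟩
    have hper' : Function.Periodic σ P := hper
    obtain ⟨y, hy, hxy⟩ := hper'.exists_mem_Ico₀ hP x
    rw [hxy]
    exact hx0 ⟨hy.1, hy.2.le⟩
  set ψ : ℝ → ℝ := fun x => ∫ t in (0:ℝ)..x, σ t with hψ
  have dψ : ∀ x, HasDerivAt ψ (σ x) x := fun x => prim_deriv hc x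
  have sψ : ContDiff ℝ ∞ ψ := smooth_of_deriv dψ hσ
  have mψ : StrictMono ψ := by
    apply strictMono_of_deriv_pos
    intro x; rw [(dψ x).deriv]; exact hpos x
  have hψ0 : ψ 0 = 0 := by simp [hψ]
  have hmono : Monotone (fun x => ψ x - c * x) := by
    apply monotone_of_deriv_nonneg
    · exact fun x => ((dψ x).sub ((hasDerivAt_id x).const_mul c)).differentiableAt
    · intro x
      have h1 : HasDerivAt (fun x => ψ x - c * x) (σ x - c * 1) x :=
        (dψ x).sub ((hasDerivAt_id x).const_mul c)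
      rw [h1.deriv]
      linarith [hcσ x]
  have htop : Tendsto ψ atTop atTop := by
    refine tendsto_atTop_mono' _ ?_ (tendsto_id.const_mul_atTop hc0)
    filter_upwards [eventually_ge_atTop 0] with x hx
    have := hmono hx
    simp only [hψ0, mul_zero, sub_zero] at this
    simp only [id]
    linarith
  have hbot : Tendsto ψ atBot atBot := by
    refine tendsto_atBot_mono' _ ?_ (tendsto_id.const_mul_atBot hc0)
    filter_upwards [eventually_le_atBot 0] with x hx
    have := hmono hx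
    simp only [hψ0, mul_zero, sub_zero] at this
    simp only [id]
    linarith
  have hsurj : Function.Surjective ψ := sψ.continuous.surjective htop hbot
  set o : ℝ ≃o ℝ := mψ.orderIsoOfSurjective ψ hsurj with ho
  set e : ℝ ≃ₜ ℝ := o.toHomeomorph with he
  have hcoe : (e : ℝ → ℝ) = ψ := rfl
  set φ : ℝ → ℝ := fun s => e.symm s with hφ
  have inv1 : ∀ s, ψ (φ s) = s := fun s => e.apply_symm_apply s
  have inv2 : ∀ x, φ (ψ x) = x := fun x => e.symm_apply_apply x
  have sφ : ContDiff ℝ ∞ φ :=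
    e.contDiff_symm_deriv (f' := σ) (fun x => (hpos x).ne') (fun x => dψ x) sψ
  have mφ : StrictMono φ := o.symm.strictMono
  have shiftψ : ∀ x, ψ (x + P) = ψ x + ψ P := by
    intro x
    have := per_of_deriv dψ hper x
    rw [hψ0, sub_zero] at this
    exact this
  refine ⟨ψ P, φ, ψ, ?_, dψ, ?_, sψ, sφ, mψ, mφ, inv1, inv2, ?_⟩
  · rw [← hψ0]; exact mψ hP
  · intro s
    have h1 : HasDerivAt φ (deriv φ s) s := (sφ.differentiable (by simp) s).hasDerivAt
    have h2 := (dψ (φ s)).comp s h1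
    have h3 : (ψ ∘ φ) = id := funext inv1
    rw [h3] at h2
    have h4 := h2.unique (hasDerivAt_id s)
    have h5 : deriv φ s = (σ (φ s))⁻¹ := eq_inv_of_mul_eq_one_right h4
    rw [← h5]; exact h1
  · intro s
    apply mψ.injective
    rw [shiftψ, inv1, inv1]

/-! ### algebra -/

theorem smooth_dot {f g : ℝ → Fin 3 → ℝ} (hf : ContDiff ℝ ∞ f) (hg : ContDiff ℝ ∞ g) :
    ContDiff ℝ ∞ (fun x => dot (f x) (g x)) := by
  rw [contDiff_pi] at hf hg
  exact (((hf 0).mul (hg 0)).add ((hf 1).mul (hg 1))).add ((hf 2).mul (hg 2))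

theorem smooth_crs {f g : ℝ → Fin 3 → ℝ} (hf : ContDiff ℝ ∞ f) (hg : ContDiff ℝ ∞ g) :
    ContDiff ℝ ∞ (fun x => crs (f x) (g x)) := by
  rw [contDiff_pi] at hf hg ⊢
  intro i
  fin_cases i
  · exact ((hf 1).mul (hg 2)).sub ((hf 2).mul (hg 1))
  · exact ((hf 2).mul (hg 0)).sub ((hf 0).mul (hg 2))
  · exact ((hf 0).mul (hg 1)).sub ((hf 1).mul (hg 0))

theorem alg1 (a b c : Fin 3 → ℝ) (L L1 L2 s s1 : ℝ) (hs : s ≠ 0) :
    dot (crs (L • a) (s⁻¹ • (L1 • a + L • b)))
      ((-s1 / s ^ 3) • (L1 • a + L • b) + (s ^ 2)⁻¹ • (L2 • a + (2 * L1) • b + L • c)) =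
      L ^ 3 * dot (crs a b) c / s ^ 3 := by
  simp only [dot, crs0, crs1, crs2, Pi.smul_apply, Pi.add_apply, smul_eq_mul]
  field_simp
  ring

theorem alg2 (a b p : Fin 3 → ℝ) (L L1 M s : ℝ) (hs : s ≠ 0) :
    dot (crs (L • a) (s⁻¹ • (L1 • a + L • b))) (M • p) = L ^ 2 * M * dot (crs a b) p / s := by
  simp only [dot, crs0, crs1, crs2, Pi.smul_apply, Pi.add_apply, smul_eq_mul]
  field_simp
  ring

theorem alg3 (a b c p : Fin 3 → ℝ) (L L1 L2 M s s1 : ℝ) (hs : s ≠ 0) :
    dot (crs (L • a) ((-s1 / s ^ 3) • (L1 • a + L • b) +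
      (s ^ 2)⁻¹ • (L2 • a + (2 * L1) • b + L • c))) (M • p) =
      M * L ^ 2 * ((2 * L1 / L / s ^ 2 - s1 / s ^ 3) * dot (crs a b) p + dot (crs a c) p / s ^ 2) := by
  by_cases hL : L = 0
  · subst hL
    simp [dot]
  simp only [dot, crs0, crs1, crs2, Pi.smul_apply, Pi.add_apply, smul_eq_mul]
  field_simp
  ring

/-! ### the theorem -/

theorem D0_pos {g : ℝ → Fin 3 → ℝ} (hg : Dual g) {x x' : ℝ} (h0 : 0 < |x' - x|)
    (h1 : |x' - x| < 2 * π) : 0 < D0 g x x' := by
  have hne : x' - x ≠ 0 := abs_pos.mp h0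
  obtain ⟨h2, h3⟩ := abs_lt.mp h1
  rcases lt_or_gt_of_ne hne with h | h
  · have := hg.pos x (x' + 2 * π) (by linarith) (by linarith)
    unfold D0 at this ⊢
    rwa [hg.per] at this
  · exact hg.pos x x' (by linarith) (by linarith)

theorem reparam {g : ℝ → Fin 3 → ℝ} (hg : Dual g) {k : ℝ → ℝ} (hk : ContDiff ℝ ∞ k)
    (hkp : ∀ x, k (x + 2 * π) = k x) (h0 : ∫ x in (0:ℝ)..(2 * π), k x = 0) :
    ∃ (T : ℝ) (G n : ℕ → ℝ → (Fin 3 → ℝ)) (φ ψ lam bet : ℝ → ℝ), Curve T G n ∧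
      Continuous φ ∧ StrictMono φ ∧ Continuous ψ ∧ StrictMono ψ ∧
      (∀ s, ψ (φ s) = s) ∧ (∀ x, φ (ψ x) = x) ∧ (∀ s, φ (s + T) = φ s + 2 * π) ∧
      (∀ s, 0 < lam s) ∧ (∀ s, G 0 s = lam s • g (φ s)) ∧ (∀ s, 0 < bet s) ∧
      ∀ s s', 0 < |s' - s| → |s' - s| < T →
        u1 G n s s' = bet s * (uu g (φ s) (φ s') - k (φ s) / 2) := by
  -- derivatives of `g`
  obtain ⟨dg', sg1⟩ := contDiff_infty_iff_deriv.mp hg.smooth
  obtain ⟨dg1', sg2⟩ := contDiff_infty_iff_deriv.mp sg1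
  have dg : ∀ x, HasDerivAt g (deriv g x) x := fun x => (dg' x).hasDerivAt
  have dg1 : ∀ x, HasDerivAt (deriv g) (deriv (deriv g) x) x := fun x => (dg1' x).hasDerivAt
  have pg1 : ∀ x, deriv g (x + 2 * π) = deriv g x := by
    intro x; simpa [iteratedDeriv_one] using iter_per hg.per 1 x
  have pg2 : ∀ x, deriv (deriv g) (x + 2 * π) = deriv (deriv g) x := by
    intro x; simpa [iteratedDeriv_one] using iter_per pg1 1 x
  -- `om`
  set om : ℝ → ℝ := fun x => dot (crs (g x) (deriv g x)) (deriv (deriv g) x) with hom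
  have om_pos : ∀ x, 0 < om x := hg.curv
  have som : ContDiff ℝ ∞ om := smooth_dot (smooth_crs hg.smooth sg1) sg2
  have pom : ∀ x, om (x + 2 * π) = om x := by
    intro x; simp only [hom]; rw [hg.per, pg1, pg2]
  have dom : ∀ x, HasDerivAt om (deriv om x) x := fun x =>
    (som.differentiable (by simp) x).hasDerivAt
  -- `K`
  set K : ℝ → ℝ := fun x => ∫ t in (0:ℝ)..x, k t with hK
  have dK : ∀ x, HasDerivAt K (k x) x := fun x => prim_deriv hk.continuous x
  have sK : ContDiff ℝ ∞ K := smooth_of_deriv dK hk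
  have pK : ∀ x, K (x + 2 * π) = K x := by
    intro x
    have := per_of_deriv dK hkp x
    have h1 : K (2 * π) = 0 := h0
    have h2 : K 0 = 0 := by simp [hK]
    rw [this, h1, h2]; ring
  -- `Lam`, `sig`
  have sE : ∀ c : ℝ, ContDiff ℝ ∞ (fun x => Real.exp (c * Real.log (om x) - K x / 2)) := fun c =>
    ((contDiff_const.mul (som.log fun x => (om_pos x).ne')).sub (sK.div_const 2)).exp
  have dE : ∀ (c x : ℝ), HasDerivAt (fun x => Real.exp (c * Real.log (om x) - K x / 2))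
      (Real.exp (c * Real.log (om x) - K x / 2) * (c * (deriv om x / om x) - k x / 2)) x := by
    intro c x
    exact ((((dom x).log (om_pos x).ne').const_mul c).sub ((dK x).div_const 2)).exp
  set Lam : ℝ → ℝ := fun x => Real.exp (1 / 3 * Real.log (om x) - K x / 2) with hLam
  set sig : ℝ → ℝ := fun x => Real.exp (2 / 3 * Real.log (om x) - K x / 2) with hsig
  set L1 : ℝ → ℝ := fun x => Lam x * (1 / 3 * (deriv om x / om x) - k x / 2) with hL1
  set s1 : ℝ → ℝ := fun x => sig x * (2 / 3 * (deriv om x / om x) - k x / 2) with hs1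
  have Lam_pos : ∀ x, 0 < Lam x := fun x => Real.exp_pos _
  have sig_pos : ∀ x, 0 < sig x := fun x => Real.exp_pos _
  have sLam : ContDiff ℝ ∞ Lam := sE _
  have ssig : ContDiff ℝ ∞ sig := sE _
  have dLam : ∀ x, HasDerivAt Lam (L1 x) x := fun x => dE _ x
  have dsig : ∀ x, HasDerivAt sig (s1 x) x := fun x => dE _ x
  have psig : ∀ x, sig (x + 2 * π) = sig x := by
    intro x; simp only [hsig]; rw [pom, pK]
  have pLam : ∀ x, Lam (x + 2 * π) = Lam x := by
    intro x; simp only [hLam]; rw [pom, pK]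
  have eL1 : L1 = deriv Lam := funext fun x => (dLam x).deriv.symm
  have sL1 : ContDiff ℝ ∞ L1 := by
    rw [eL1]; exact (contDiff_infty_iff_deriv.mp sLam).2
  have dL1 : ∀ x, HasDerivAt L1 (deriv L1 x) x := fun x =>
    (sL1.differentiable (by simp) x).hasDerivAt
  have cube : ∀ x, Lam x ^ 3 * om x = sig x ^ 3 := by
    intro x
    have h1 : om x = Real.exp (Real.log (om x)) := (Real.exp_log (om_pos x)).symm
    have h2 : Lam x ^ 3 = Real.exp (3 * (1 / 3 * Real.log (om x) - K x / 2)) := by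
      rw [← Real.exp_nat_mul]; norm_num [hLam]
    have h3 : sig x ^ 3 = Real.exp (3 * (2 / 3 * Real.log (om x) - K x / 2)) := by
      rw [← Real.exp_nat_mul]; norm_num [hsig]
    rw [h2, h3]
    nth_rewrite 2 [h1]
    rw [← Real.exp_add]
    congr 1; ring
  have key : ∀ x, 2 * L1 x / Lam x - s1 x / sig x = - k x / 2 := by
    intro x
    simp only [hL1, hs1]
    have e1 := (Lam_pos x).ne'
    have e2 := (sig_pos x).ne'
    field_simp
    ring
  -- the new parameter
  obtain ⟨T, φ, ψ, Q⟩ := exists_par (P := 2 * π) (by positivity) ssig sig_pos psig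
  set Γ : ℝ → Fin 3 → ℝ := fun s => Lam (φ s) • g (φ s) with hΓ
  have sΓ : ContDiff ℝ ∞ Γ := (sLam.comp Q.sφ).smul (hg.smooth.comp Q.sφ)
  set Γ1 : ℝ → Fin 3 → ℝ := fun s => (sig (φ s))⁻¹ • (L1 (φ s) • g (φ s) + Lam (φ s) • deriv g (φ s))
    with hΓ1
  set Γ2 : ℝ → Fin 3 → ℝ := fun s => (-s1 (φ s) / sig (φ s) ^ 3) •
    (L1 (φ s) • g (φ s) + Lam (φ s) • deriv g (φ s)) + (sig (φ s) ^ 2)⁻¹ •
    (deriv L1 (φ s) • g (φ s) + (2 * L1 (φ s)) • deriv g (φ s) + Lam (φ s) • deriv (deriv g) (φ s))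
    with hΓ2
  have dΓ : ∀ s, HasDerivAt Γ (Γ1 s) s := by
    intro s
    have h1 : HasDerivAt (fun x => Lam x • g x) (Lam (φ s) • deriv g (φ s) + L1 (φ s) • g (φ s))
      (φ s) := (dLam (φ s)).smul (dg (φ s))
    have h2 := HasDerivAt.scomp s h1 (Q.dφ s)
    refine h2.congr_deriv ?_
    simp only [hΓ1]
    rw [add_comm]
  have dΓ1 : ∀ s, HasDerivAt Γ1 (Γ2 s) s := by
    intro s
    have h1 : HasDerivAt (fun x => L1 x • g x + Lam x • deriv g x)
        ((L1 (φ s) • deriv g (φ s) + deriv L1 (φ s) • g (φ s)) +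
          (Lam (φ s) • deriv (deriv g) (φ s) + L1 (φ s) • deriv g (φ s))) (φ s) :=
      ((dL1 (φ s)).smul (dg (φ s))).add ((dLam (φ s)).smul (dg1 (φ s)))
    have h2 : HasDerivAt (fun x => (sig x)⁻¹) (-s1 (φ s) / sig (φ s) ^ 2) (φ s) :=
      (dsig (φ s)).inv (sig_pos _).ne'
    have h3 := HasDerivAt.scomp s (h2.smul h1) (Q.dφ s)
    refine h3.congr_deriv ?_
    simp only [hΓ2]
    have e2 := (sig_pos (φ s)).ne'
    ext i
    simp only [Pi.smul_apply, Pi.add_apply, smul_eq_mul]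
    field_simp
    ring
  have eΓ1 : deriv Γ = Γ1 := funext fun s => (dΓ s).deriv
  have eΓ2 : deriv (deriv Γ) = Γ2 := by rw [eΓ1]; exact funext fun s => (dΓ1 s).deriv
  set N : ℝ → Fin 3 → ℝ := fun s => crs (Γ s) (deriv Γ s) with hN
  have sN : ContDiff ℝ ∞ N := smooth_crs sΓ (contDiff_infty_iff_deriv.mp sΓ).2
  have pΓ : ∀ s, Γ (s + T) = Γ s := by
    intro s; simp only [hΓ]; rw [Q.shift, pLam, hg.per]
  have pΓ' : ∀ s, deriv Γ (s + T) = deriv Γ s := by
    intro x; simpa [iteratedDeriv_one] using iter_per pΓ 1 x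
  have pN : ∀ s, N (s + T) = N s := by
    intro s; simp only [hN]; rw [pΓ, pΓ']
  have hD : ∀ s s', dot (crs (Γ s) (Γ1 s)) (Γ s') =
      Lam (φ s) ^ 2 * Lam (φ s') * D0 g (φ s) (φ s') / sig (φ s) := fun s s' =>
    alg2 _ _ _ _ _ _ _ (sig_pos _).ne'
  have H : Curve T (fun i => iteratedDeriv i Γ) (fun i => iteratedDeriv i N) := by
    refine ⟨Q.Tpos, fun i x => iter_deriv sΓ i x, fun i x => iter_deriv sN i x,
      fun i x => iter_per pΓ i x, fun i x => iter_per pN i x, ?_, ?_, ?_⟩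
    · intro x
      simp only [iteratedDeriv_zero, iteratedDeriv_one, hN]
    · intro x
      simp only [iteratedDeriv_zero, iteratedDeriv_succ, hN]
      rw [eΓ2, eΓ1]
      have := alg1 (g (φ x)) (deriv g (φ x)) (deriv (deriv g) (φ x)) (Lam (φ x)) (L1 (φ x))
        (deriv L1 (φ x)) (sig (φ x)) (s1 (φ x)) (sig_pos _).ne'
      have h2 := cube (φ x)
      have e2 := (sig_pos (φ x)).ne'
      simp only [hΓ, hΓ1, hΓ2]
      rw [this]
      simp only [hom] at h2
      rw [h2]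
      field_simp
    · intro s s' h1 h2
      simp only [iteratedDeriv_zero, hN]
      rw [eΓ1, hD]
      have h3 : φ s < φ s' := Q.mφ h1
      have h4 : φ s' < φ s + 2 * π := by
        rw [← Q.shift]; exact Q.mφ h2
      have h5 := hg.pos _ _ h3 h4
      have := Lam_pos (φ s)
      have := Lam_pos (φ s')
      have := sig_pos (φ s)
      positivity
  refine ⟨T, _, _, φ, ψ, fun s => Lam (φ s), fun s => (sig (φ s))⁻¹, H, Q.sφ.continuous, Q.mφ,
    Q.sψ.continuous, Q.mψ, Q.inv1, Q.inv2, Q.shift, fun s => Lam_pos _, fun s => ?_,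
    fun s => inv_pos.2 (sig_pos _), ?_⟩
  · simp only [iteratedDeriv_zero, hΓ]
  · intro s s' h1 h2
    have hne : φ s' ≠ φ s := by
      intro h
      have := Q.mφ.injective h
      rw [this, sub_self, abs_zero] at h1
      exact lt_irrefl _ h1
    have hb : |φ s' - φ s| < 2 * π := by
      obtain ⟨h3, h4⟩ := abs_lt.mp h2
      rw [abs_lt]
      constructor
      · have := Q.mφ (show s < s' + T by linarith)
        rw [Q.shift] at this
        linarith
      · have := Q.mφ (show s' < s + T by linarith)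
        rw [Q.shift] at this
        linarith
    have hD0 := D0_pos hg (abs_pos.2 (sub_ne_zero.2 hne)) hb
    unfold u1 Dk
    beta_reduce
    rw [H.n1 s, H.n0 s]
    simp only [iteratedDeriv_zero, iteratedDeriv_succ]
    rw [eΓ2, eΓ1, hD]
    have h3 := alg3 (g (φ s)) (deriv g (φ s)) (deriv (deriv g) (φ s)) (g (φ s')) (Lam (φ s))
      (L1 (φ s)) (deriv L1 (φ s)) (Lam (φ s')) (sig (φ s)) (s1 (φ s)) (sig_pos _).ne'
    have h4 : dot (crs (Γ s) (Γ2 s)) (Γ s') = Lam (φ s') * Lam (φ s) ^ 2 *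
        ((2 * L1 (φ s) / Lam (φ s) / sig (φ s) ^ 2 - s1 (φ s) / sig (φ s) ^ 3) *
          D0 g (φ s) (φ s') + uu g (φ s) (φ s') * D0 g (φ s) (φ s') / sig (φ s) ^ 2) := by
      rw [uu, div_mul_cancel₀ _ hD0.ne']
      exact h3
    rw [h4]
    have hk' := key (φ s)
    have e1 := (Lam_pos (φ s)).ne'
    have e1' := (Lam_pos (φ s')).ne'
    have e2 := (sig_pos (φ s)).ne'
    have e3 := hD0.ne'
    have h5 : 2 * L1 (φ s) / Lam (φ s) / sig (φ s) ^ 2 - s1 (φ s) / sig (φ s) ^ 3 =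
        (2 * L1 (φ s) / Lam (φ s) - s1 (φ s) / sig (φ s)) / sig (φ s) ^ 2 := by
      field_simp
    rw [h5, hk']
    field_simp
    ring

end Pool.Agent.TH874.PG
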