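import Pool.Agent.TH319.CDefs

/-!
Transport of an almost unitarily invariant pair from a closed subspace to the whole space.
-/

namespace Pool.Agent.TH319
open Module Filter Topology
universe u

/-- A vanishing combination `α u₀ + β v₀ + k` of an almost unitarily invariant pair has zero
coefficients. -/
theorem nu_key {X : Type u} [NormedAddCommGroup X] [NormedSpace ℂ X] {ε : ℝ}
    {u₀ v₀ : X} {K₀ : Submodule ℂ X} (hu : u₀ ≠ 0) (h : NU ε u₀ v₀ K₀)
    {α β : ℂ} {k : X} (hk : k ∈ K₀) (h0 : α • u₀ + β • v₀ + k = 0) : α = 0 ∧ β = 0 := by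
  have h1 := (h α β k hk).2
  rw [h0, norm_zero, mul_zero] at h1
  have h2 : ((Real.sqrt (‖α‖ ^ 2 + ‖β‖ ^ 2) : ℝ) : ℂ) • u₀ + k = 0 :=
    norm_le_zero_iff.1 h1
  have h3 := (h (-α) (-β) k hk).1
  rw [norm_neg, norm_neg, h2, norm_zero, mul_zero] at h3
  have h4 : (-α) • u₀ + (-β) • v₀ + k = 0 := norm_le_zero_iff.1 h3
  have h5 : (2 : ℂ) • k = 0 := by
    have : (α • u₀ + β • v₀ + k) + ((-α) • u₀ + (-β) • v₀ + k) = (2 : ℂ) • k := by
      module
    rw [← this, h0, h4, add_zero]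
  have h6 : k = 0 := by
    rcases smul_eq_zero.1 h5 with h | h
    · norm_num at h
    · exact h
  rw [h6, add_zero] at h2
  have h7 : Real.sqrt (‖α‖ ^ 2 + ‖β‖ ^ 2) = 0 := by
    rcases smul_eq_zero.1 h2 with h | h
    · exact_mod_cast h
    · exact absurd h hu
  have h8 : ‖α‖ ^ 2 + ‖β‖ ^ 2 = 0 := (Real.sqrt_eq_zero (by positivity)).1 h7
  have h9 : ‖α‖ ^ 2 = 0 := by nlinarith [sq_nonneg ‖α‖, sq_nonneg ‖β‖]
  have h10 : ‖β‖ ^ 2 = 0 := by nlinarith [sq_nonneg ‖α‖, sq_nonneg ‖β‖]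
  exact ⟨norm_eq_zero.1 (by simpa using h9), norm_eq_zero.1 (by simpa using h10)⟩

-- J22
theorem uu_top {X : Type u} [NormedAddCommGroup X] [NormedSpace ℂ X] [CompleteSpace X]
    (hX : Homog ℂ X) {ε : ℝ} (hε : 0 < ε) (hnr : ¬ Rigid ε X) :
    ∃ (u v : X) (φu φv : X →L[ℂ] ℂ), u ≠ 0 ∧ φu u = 1 ∧ φu v = 0 ∧ φv u = 0 ∧ φv v = 1 ∧
      NU ε u v (LinearMap.ker (φu : X →ₗ[ℂ] ℂ) ⊓ LinearMap.ker (φv : X →ₗ[ℂ] ℂ)) := by
  have _ := hε
  unfold Rigid at hnr
  push Not at hnr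
  obtain ⟨u₀, v₀, K₀, hu0, hK, hNU⟩ := hnr
  -- the subspace
  set X₀ : Submodule ℂ X := K₀ ⊔ Submodule.span ℂ {u₀, v₀} with hX₀
  have hfd : FiniteDimensional ℂ (Submodule.span ℂ ({u₀, v₀} : Set X)) :=
    FiniteDimensional.span_of_finite ℂ (by simp)
  have hcl : IsClosed (X₀ : Set X) :=
    Submodule.isClosed_sup_finiteDimensional K₀ _ hK.closed
  have hinf : ¬ FiniteDimensional ℂ X₀ := by
    intro h
    exact hK.inf (Submodule.finiteDimensional_of_le (le_sup_left : K₀ ≤ X₀))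
  have hu₀X : u₀ ∈ X₀ := Submodule.mem_sup_right (Submodule.subset_span (by simp))
  have hv₀X : v₀ ∈ X₀ := Submodule.mem_sup_right (Submodule.subset_span (by simp))
  obtain ⟨V⟩ := hX X₀ hcl hinf
  -- functionals
  have hclu : IsClosed ((K₀ ⊔ Submodule.span ℂ {v₀} : Submodule ℂ X) : Set X) :=
    Submodule.isClosed_sup_finiteDimensional K₀ _ hK.closed
  have hclv : IsClosed ((K₀ ⊔ Submodule.span ℂ {u₀} : Submodule ℂ X) : Set X) :=
    Submodule.isClosed_sup_finiteDimensional K₀ _ hK.closed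
  have hnu : u₀ ∉ (K₀ ⊔ Submodule.span ℂ {v₀} : Submodule ℂ X) := by
    intro h
    obtain ⟨k, hk, w, hw, hkw⟩ := Submodule.mem_sup.1 h
    obtain ⟨c, rfl⟩ := Submodule.mem_span_singleton.1 hw
    have h1 : (-1 : ℂ) • u₀ + c • v₀ + k = 0 := by
      rw [← hkw]; module
    have h2 := (nu_key hu0 hNU hk h1).1
    norm_num at h2
  have hnv : v₀ ∉ (K₀ ⊔ Submodule.span ℂ {u₀} : Submodule ℂ X) := by
    intro h
    obtain ⟨k, hk, w, hw, hkw⟩ := Submodule.mem_sup.1 h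
    obtain ⟨c, rfl⟩ := Submodule.mem_span_singleton.1 hw
    have h1 : c • u₀ + (-1 : ℂ) • v₀ + k = 0 := by
      rw [← hkw]; module
    have h2 := (nu_key hu0 hNU hk h1).2
    norm_num at h2
  obtain ⟨fu, hfu1, hfu2⟩ := exists_functional hclu hnu
  obtain ⟨fv, hfv1, hfv2⟩ := exists_functional hclv hnv
  have hfuv : fu v₀ = 0 :=
    hfu2 _ (Submodule.mem_sup_right (Submodule.mem_span_singleton_self v₀))
  have hfvu : fv u₀ = 0 :=
    hfv2 _ (Submodule.mem_sup_right (Submodule.mem_span_singleton_self u₀))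
  have hfuK : ∀ k ∈ K₀, fu k = 0 := fun k hk => hfu2 _ (Submodule.mem_sup_left hk)
  have hfvK : ∀ k ∈ K₀, fv k = 0 := fun k hk => hfv2 _ (Submodule.mem_sup_left hk)
  set T : X →L[ℂ] X := X₀.subtypeL.comp (V.toContinuousLinearEquiv : X →L[ℂ] X₀) with hT
  have hTx : ∀ x, T x = (V x : X) := fun x => rfl
  have hTn : ∀ x, ‖T x‖ = ‖x‖ := by
    intro x
    rw [hTx, Submodule.norm_coe, V.norm_map]
  set u : X := V.symm ⟨u₀, hu₀X⟩ with hu
  set v : X := V.symm ⟨v₀, hv₀X⟩ with hv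
  have hTu : T u = u₀ := by rw [hTx, hu, V.apply_symm_apply]
  have hTv : T v = v₀ := by rw [hTx, hv, V.apply_symm_apply]
  refine ⟨u, v, fu.comp T, fv.comp T, ?_, ?_, ?_, ?_, ?_, ?_⟩
  · intro h
    rw [h, map_zero] at hTu
    exact hu0 hTu.symm
  · rw [ContinuousLinearMap.comp_apply, hTu, hfu1]
  · rw [ContinuousLinearMap.comp_apply, hTv, hfuv]
  · rw [ContinuousLinearMap.comp_apply, hTu, hfvu]
  · rw [ContinuousLinearMap.comp_apply, hTv, hfv1]
  · intro α β k hk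
    obtain ⟨hk1, hk2⟩ := Submodule.mem_inf.1 hk
    have hk1' : fu (T k) = 0 := LinearMap.mem_ker.1 hk1
    have hk2' : fv (T k) = 0 := LinearMap.mem_ker.1 hk2
    have hTk : T k ∈ K₀ := by
      have hmem : T k ∈ X₀ := by rw [hTx]; exact (V k).2
      obtain ⟨k0, hk0, w, hw, hkw⟩ := Submodule.mem_sup.1 hmem
      obtain ⟨a, b, rfl⟩ := Submodule.mem_span_pair.1 hw
      rw [← hkw, map_add, map_add, map_smul, map_smul, hfuK k0 hk0, hfu1, hfuv] at hk1'
      rw [← hkw, map_add, map_add, map_smul, map_smul, hfvK k0 hk0, hfv1, hfvu] at hk2'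
      have ha : a = 0 := by simpa using hk1'
      have hb : b = 0 := by simpa using hk2'
      rw [← hkw, ha, hb]
      simpa using hk0
    have h1 := hNU α β (T k) hTk
    have e1 : ‖α • u + β • v + k‖ = ‖α • u₀ + β • v₀ + T k‖ := by
      rw [← hTn, map_add, map_add, map_smul, map_smul, hTu, hTv]
    have e2 : ∀ r : ℂ, ‖r • u + k‖ = ‖r • u₀ + T k‖ := by
      intro r
      rw [← hTn, map_add, map_smul, hTu]
    rw [e1, e2]
    exact h1

end Pool.Agent.TH319
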