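import Pool.Agent.TH387.EI.Defs
import Pool.Agent.H278R2.Kad7.DSum

/-! EI-8: direct sums and the Kadison-Kastler distance. -/

set_option autoImplicit false
open scoped ComplexOrder InnerProductSpace
noncomputable section

namespace Pool.Agent.TH874.EI8
universe u

open H770R2.Kad.DSaux

variable {A : Type u} [NonUnitalCStarAlgebra A] {I : Type u} {K : I → Type u}
  [∀ i, NormedAddCommGroup (K i)] [∀ i, InnerProductSpace ℂ (K i)] [∀ i, CompleteSpace (K i)]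

theorem hn (σ : ∀ i, A →⋆ₙₐ[ℂ] (K i →L[ℂ] K i)) (a : A) (i : I) : ‖σ i a‖ ≤ ‖a‖ :=
  NonUnitalStarAlgHom.norm_apply_le (σ i) a

/-- direct sum of representations -/
def dsumRep (σ : ∀ i, A →⋆ₙₐ[ℂ] (K i →L[ℂ] K i)) :
    A →⋆ₙₐ[ℂ] (lp K 2 →L[ℂ] lp K 2) where
  toFun := fun a => dgC (fun i => σ i a) (norm_nonneg a) (hn σ a)
  map_smul' := fun c a => by
    ext f i
    rw [dgC_apply, map_smul]
    rfl
  map_zero' := by
    ext f i
    rw [dgC_apply, map_zero]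
    rfl
  map_add' := fun a b => by
    ext f i
    rw [dgC_apply, map_add]
    rfl
  map_mul' := fun a b => by
    ext f i
    rw [dgC_apply, map_mul]
    rfl
  map_star' := fun a => by
    rw [ContinuousLinearMap.star_eq_adjoint, ContinuousLinearMap.eq_adjoint_iff]
    intro f g
    rw [lp.inner_eq_tsum, lp.inner_eq_tsum]
    apply tsum_congr
    intro i
    rw [dgC_apply, dgC_apply, map_star, ContinuousLinearMap.star_eq_adjoint,
      ContinuousLinearMap.adjoint_inner_left]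

theorem dsumRep_apply (σ : ∀ i, A →⋆ₙₐ[ℂ] (K i →L[ℂ] K i)) (a : A) (f : lp K 2) (i : I) :
    dsumRep σ a f i = σ i a (f i) := rfl

theorem norm_le_of_comp (S : lp K 2 →L[ℂ] lp K 2) (T : ∀ i, K i →L[ℂ] K i) {r : ℝ} (hr0 : 0 ≤ r)
    (hr : ∀ i, ‖T i‖ ≤ r) (h : ∀ f i, S f i = T i (f i)) : ‖S‖ ≤ r := by
  have : S = dgC T hr0 hr := by
    ext f i
    rw [h, dgC_apply]
  rw [this]
  exact LinearMap.mkContinuous_norm_le _ hr0 _

theorem eq_zero_of_dsum (σ : ∀ i, A →⋆ₙₐ[ℂ] (K i →L[ℂ] K i)) (a : A) (h : dsumRep σ a = 0)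
    (i : I) : σ i a = 0 := by
  classical
  ext v
  have h1 := dsumRep_apply σ a (lp.single 2 i v) i
  rw [h, lp.single_apply_self] at h1
  rw [← h1]
  rfl

end Pool.Agent.TH874.EI8

namespace Pool.Agent.TH387.EI
universe u

open Pool.Agent.TH874.EI8

variable {A B : Type u} [NonUnitalCStarAlgebra A] [NonUnitalCStarAlgebra B]

theorem assemble (φ : A → B) (ε : ℝ) (hφ : AI φ ε) (r : ℝ) (hr : 0 ≤ r) (hr1 : r + ε < 1)
    (h : ∀ b : B, b ≠ 0 → ∃ (K : Type u) (_ : NormedAddCommGroup K) (_ : InnerProductSpace ℂ K)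
      (_ : CompleteSpace K) (ρ : A →⋆ₙₐ[ℂ] (K →L[ℂ] K)) (π : B →⋆ₙₐ[ℂ] (K →L[ℂ] K)), π b ≠ 0 ∧
      ∀ a, ‖a‖ ≤ 1 → ‖ρ a - π (φ a)‖ ≤ r) :
    ∃ (L : Type u) (_ : NormedAddCommGroup L) (_ : InnerProductSpace ℂ L) (_ : CompleteSpace L)
      (ρA : A →⋆ₙₐ[ℂ] (L →L[ℂ] L)) (ρB : B →⋆ₙₐ[ℂ] (L →L[ℂ] L)), Function.Injective ρA ∧
      Function.Injective ρB ∧ dKK (Set.range ρA) (Set.range ρB) ≤ r + ε := by
  classical
  choose K i1 i2 i3 ρ π hπ hd using (fun b : {b : B // b ≠ 0} => h b.1 b.2)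
  have hε : 0 ≤ ε := by
    have h0 := hφ.iso 0 (by simp)
    exact (abs_nonneg _).trans h0
  let RA := dsumRep ρ
  let RB := dsumRep π
  have hRB : Function.Injective RB := by
    rw [injective_iff_map_eq_zero]
    intro b hb
    by_contra hb0
    exact hπ ⟨b, hb0⟩ (eq_zero_of_dsum π b hb ⟨b, hb0⟩)
  have hclose : ∀ a : A, ‖a‖ ≤ 1 → ‖RA a - RB (φ a)‖ ≤ r := by
    intro a ha
    refine norm_le_of_comp _ (fun i => ρ i a - π i (φ a)) hr (fun i => hd i a ha) ?_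
    intro f i
    rfl
  have hRBn : ∀ b : B, ‖RB b‖ = ‖b‖ := fun b => NonUnitalStarAlgHom.norm_map RB hRB b
  have hRA : Function.Injective RA := by
    rw [injective_iff_map_eq_zero]
    intro a ha
    by_contra ha0
    have hn0 : 0 < ‖a‖ := norm_pos_iff.mpr ha0
    set a' : A := ((‖a‖⁻¹ : ℝ) : ℂ) • a with ha'
    have hn1 : ‖a'‖ = 1 := by
      rw [ha', norm_smul, Complex.norm_real, Real.norm_eq_abs, abs_of_pos (inv_pos.mpr hn0),
        inv_mul_cancel₀ hn0.ne']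
    have h1 := hclose a' hn1.le
    have h2 : RA a' = 0 := by rw [ha', map_smul, ha, smul_zero]
    rw [h2, zero_sub, norm_neg, hRBn] at h1
    have h3 := hφ.iso a' hn1.le
    rw [hn1, abs_le] at h3
    linarith [h3.2]
  have hRAn : ∀ a : A, ‖RA a‖ = ‖a‖ := fun a => NonUnitalStarAlgHom.norm_map RA hRA a
  refine ⟨lp K 2, inferInstance, inferInstance, inferInstance, RA, RB, hRA, hRB, ?_⟩
  unfold dKK
  apply max_le
  · apply Real.sSup_le _ (by linarith)
    rintro x ⟨y, ⟨⟨a, rfl⟩, hy⟩, rfl⟩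
    rw [mem_closedBall_zero_iff, hRAn] at hy
    refine (Metric.infDist_le_dist_of_mem (Set.mem_range_self (φ a))).trans ?_
    rw [dist_eq_norm]
    linarith [hclose a hy]
  · apply Real.sSup_le _ (by linarith)
    rintro x ⟨y, ⟨⟨b, rfl⟩, hy⟩, rfl⟩
    rw [mem_closedBall_zero_iff, hRBn] at hy
    obtain ⟨a, ha, hab⟩ := hφ.surj b hy
    refine (Metric.infDist_le_dist_of_mem (Set.mem_range_self a)).trans ?_
    rw [dist_eq_norm]
    have h1 : RB b - RA a = RB (b - φ a) - (RA a - RB (φ a)) := by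
      rw [map_sub]; abel
    rw [h1]
    refine (norm_sub_le _ _).trans ?_
    rw [hRBn]
    linarith [hclose a ha]

end Pool.Agent.TH387.EI
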